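import Mathlib

set_option autoImplicit false

namespace Pool.Agent.H.MP_bf8eef_co

open Finset Function
open scoped Classical

variable {α V W : Type} [Fintype α] [Fintype V] [Fintype W]

def IsC (F : SimpleGraph α) (G : SimpleGraph V) (φ : α → V) : Prop :=
  Injective φ ∧ ∀ a b, F.Adj a b → G.Adj (φ a) (φ b)

noncomputable def N (F : SimpleGraph α) (G : SimpleGraph V) (v : V) : ℕ :=
  (univ.filter (fun φ : α → V => IsC F G φ ∧ ∃ a, φ a = v)).card

noncomputable def fdeg (F : SimpleGraph α) (G : SimpleGraph V) (v : V) : ℕ :=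
  {H : G.Subgraph | Nonempty (H.coe ≃g F) ∧ v ∈ H.verts}.ncard

omit [Fintype α] [Fintype V] in
lemma sub_adj {F : SimpleGraph α} {G : SimpleGraph V} (H : G.Subgraph) (e : F ≃g H.coe) (x y : V) :
    H.Adj x y ↔ ∃ a b, F.Adj a b ∧ (e a).1 = x ∧ (e b).1 = y := by
  constructor
  · intro h
    refine ⟨e.symm ⟨x, H.edge_vert h⟩, e.symm ⟨y, H.edge_vert h.symm⟩, ?_, by simp, by simp⟩
    exact e.symm.map_rel_iff.2 h
  · rintro ⟨a, b, h, rfl, rfl⟩
    exact e.map_rel_iff.2 h

omit [Fintype α] [Fintype V] in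
lemma sub_vert {F : SimpleGraph α} {G : SimpleGraph V} (H : G.Subgraph) (e : F ≃g H.coe) (x : V) :
    x ∈ H.verts ↔ ∃ a, (e a).1 = x := by
  constructor
  · intro h
    exact ⟨e.symm ⟨x, h⟩, by simp⟩
  · rintro ⟨a, rfl⟩
    exact (e a).2

lemma N_eq (F : SimpleGraph α) (G : SimpleGraph V) (v : V) :
    N F G v = Nat.card (F ≃g F) * fdeg F G v := by
  let S := {H : G.Subgraph | Nonempty (H.coe ≃g F) ∧ v ∈ H.verts}
  let T := {φ : α → V // IsC F G φ ∧ ∃ a, φ a = v}
  have h1 : N F G v = Nat.card T := by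
    unfold N
    rw [Nat.card_eq_fintype_card, Fintype.card_subtype]
  let f : (Σ H : S, (F ≃g H.1.coe)) → T := fun p =>
    ⟨fun a => (p.2 a).1, ⟨fun a b h => p.2.injective (Subtype.ext h),
      fun a b h => p.1.1.adj_sub (p.2.map_rel_iff.2 h)⟩, (sub_vert _ p.2 v).1 p.1.2.2⟩
  have hf : Bijective f := by
    constructor
    · rintro ⟨⟨H1, h1⟩, e1⟩ ⟨⟨H2, h2⟩, e2⟩ h
      have hh : ∀ a, (e1 a).1 = (e2 a).1 := fun a => congrFun (congrArg Subtype.val h) a
      have hH : H1 = H2 := by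
        ext x y
        · rw [sub_vert H1 e1, sub_vert H2 e2]; simp only [hh]
        · rw [sub_adj H1 e1, sub_adj H2 e2]; simp only [hh]
      subst hH
      have he : e1 = e2 := by
        ext a
        exact hh a
      subst he
      rfl
    · rintro ⟨φ, ⟨hi, ha⟩, a0, h0⟩
      let H : G.Subgraph :=
        { verts := Set.range φ
          Adj := fun x y => ∃ a b, F.Adj a b ∧ φ a = x ∧ φ b = y
          adj_sub := by rintro x y ⟨a, b, h, rfl, rfl⟩; exact ha a b h
          edge_vert := by rintro x y ⟨a, b, h, rfl, rfl⟩; exact ⟨a, rfl⟩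
          symm := ⟨by rintro x y ⟨a, b, h, rfl, rfl⟩; exact ⟨b, a, h.symm, rfl, rfl⟩⟩ }
      let e : F ≃g H.coe :=
        { toEquiv := Equiv.ofInjective φ hi
          map_rel_iff' := by
            intro a b
            constructor
            · rintro ⟨a', b', h, h1, h2⟩
              have h3 : a' = a := hi h1
              have h4 : b' = b := hi h2
              rw [← h3, ← h4]; exact h
            · intro h
              exact ⟨a, b, h, rfl, rfl⟩ }
      exact ⟨⟨⟨H, ⟨e.symm⟩, a0, h0⟩, e⟩, rfl⟩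
  have hfin : ∀ H : S, Finite (F ≃g H.1.coe) := fun H =>
    Finite.of_injective (fun e : F ≃g H.1.coe => (e : α → H.1.verts)) DFunLike.coe_injective
  have hS : Fintype S := Fintype.ofFinite S
  rw [h1, ← Nat.card_congr (Equiv.ofBijective f hf), Nat.card_sigma]
  have h2 : ∀ H : S, Nat.card (F ≃g H.1.coe) = Nat.card (F ≃g F) := by
    intro H
    obtain ⟨e⟩ := H.2.1
    exact Nat.card_congr
      { toFun := fun x => x.trans e
        invFun := fun x => x.trans e.symm
        left_inv := fun x => by ext a; simp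
        right_inv := fun x => by ext a; simp }
  rw [Finset.sum_congr rfl (fun H _ => h2 H)]
  simp only [sum_const, card_univ, smul_eq_mul]
  rw [mul_comm, ← Nat.card_eq_fintype_card]
  rfl

lemma aut_pos (F : SimpleGraph α) : 0 < Nat.card (F ≃g F) := by
  have : Finite (F ≃g F) :=
    Finite.of_injective (fun e : F ≃g F => (e : α → α)) DFunLike.coe_injective
  have : Nonempty (F ≃g F) := ⟨SimpleGraph.Iso.refl⟩
  exact Nat.card_pos

lemma N_comap (F : SimpleGraph α) (G : SimpleGraph V) (e : W ≃ V) (w : W) :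
    N F (G.comap e) w = N F G (e w) := by
  unfold N
  apply Finset.card_nbij' (fun φ => e ∘ φ) (fun φ => e.symm ∘ φ)
  · intro φ h
    simp only [coe_filter, mem_univ, true_and, Set.mem_ofPred_eq] at h ⊢
    obtain ⟨⟨h1, h2⟩, a, h3⟩ := h
    exact ⟨⟨e.injective.comp h1, fun a b h => h2 a b h⟩, a, by simp [h3]⟩
  · intro φ h
    simp only [coe_filter, mem_univ, true_and, Set.mem_ofPred_eq] at h ⊢
    obtain ⟨⟨h1, h2⟩, a, h3⟩ := h
    exact ⟨⟨e.symm.injective.comp h1, fun a b h => by simpa using h2 a b h⟩, a, by simp [h3]⟩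
  · intro φ _; ext a; simp
  · intro φ _; ext a; simp

lemma transfer (F : SimpleGraph α) (G : SimpleGraph V) (h2 : 2 ≤ Fintype.card V)
    (h : Injective (N F G)) :
    ∃ (m : ℕ) (G' : SimpleGraph (Fin m)), 2 ≤ m ∧ Injective (fdeg F G') := by
  refine ⟨Fintype.card V, G.comap (Fintype.equivFin V).symm, h2, fun x y hxy => ?_⟩
  apply (Fintype.equivFin V).symm.injective
  apply h
  rw [← N_comap, ← N_comap, N_eq, N_eq, hxy]

lemma cmp {F : SimpleGraph α} {G : SimpleGraph V} {u v : V} (T : (α → V) → (α → V))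
    (B Gd : Finset (α → V))
    (hT : ∀ φ, IsC F G φ → (∃ a, φ a = u) → (∀ a, φ a ≠ v) → φ ∉ B →
      IsC F G (T φ) ∧ (∃ a, T φ a = v) ∧ (∀ a, T φ a ≠ u) ∧ T φ ∉ Gd)
    (hi : ∀ φ ψ, IsC F G φ → (∃ a, φ a = u) → (∀ a, φ a ≠ v) → φ ∉ B →
      IsC F G ψ → (∃ a, ψ a = u) → (∀ a, ψ a ≠ v) → ψ ∉ B → T φ = T ψ → φ = ψ)
    (hG : ∀ ψ ∈ Gd, IsC F G ψ ∧ (∃ a, ψ a = v) ∧ (∀ a, ψ a ≠ u))
    (hc : B.card < Gd.card) : N F G u < N F G v := by
  let X := univ.filter (fun φ : α → V => IsC F G φ ∧ (∃ a, φ a = u) ∧ ∀ a, φ a ≠ v)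
  let Y := univ.filter (fun φ : α → V => IsC F G φ ∧ (∃ a, φ a = v) ∧ ∀ a, φ a ≠ u)
  let Z := univ.filter (fun φ : α → V => IsC F G φ ∧ (∃ a, φ a = u) ∧ ∃ a, φ a = v)
  have e1 : N F G u = Z.card + X.card := by
    unfold N
    rw [← card_filter_add_card_filter_not (fun φ : α → V => ∃ a, φ a = v)]
    simp only [filter_filter, X, Z, and_assoc, not_exists]
  have e2 : N F G v = Z.card + Y.card := by
    unfold N
    rw [← card_filter_add_card_filter_not (fun φ : α → V => ∃ a, φ a = u)]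
    simp only [filter_filter, Y, Z, and_assoc, not_exists]
    congr 2
    ext φ
    simp only [mem_filter, mem_univ, true_and]
    tauto
  have h1 : (X \ B).card ≤ (Y \ Gd).card := by
    apply card_le_card_of_injOn T
    · intro φ h
      simp only [X, Y, coe_sdiff, coe_filter, mem_univ, true_and, Set.mem_sdiff, Set.mem_ofPred_eq,
        mem_coe] at h ⊢
      obtain ⟨k1, k2, k3, k4⟩ := hT φ h.1.1 h.1.2.1 h.1.2.2 h.2
      exact ⟨⟨k1, k2, k3⟩, k4⟩
    · intro φ h ψ h'
      simp only [X, coe_sdiff, coe_filter, mem_univ, true_and, Set.mem_sdiff, Set.mem_ofPred_eq,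
        mem_coe] at h h'
      exact hi φ ψ h.1.1 h.1.2.1 h.1.2.2 h.2 h'.1.1 h'.1.2.1 h'.1.2.2 h'.2
  have h2 : Gd ⊆ Y := fun ψ h => by
    simp only [Y, mem_filter, mem_univ, true_and]
    exact hG ψ h
  have h3 := card_sdiff_add_card_eq_card h2
  have h4 : X.card ≤ (X \ B).card + B.card := by
    have := card_sdiff_add_card X B
    have := card_le_card (subset_union_left (s₁ := X) (s₂ := B))
    omega
  omega

lemma cmp_inv {F : SimpleGraph α} {G : SimpleGraph V} {u v : V} (π : V → V) (hπ : Involutive π)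
    (huv : π u = v) (B Gd : Finset (α → V))
    (hT : ∀ φ, IsC F G φ → (∃ a, φ a = u) → (∀ a, φ a ≠ v) → φ ∉ B →
      ∀ a b, F.Adj a b → G.Adj (π (φ a)) (π (φ b)))
    (hG : ∀ ψ ∈ Gd, IsC F G ψ ∧ (∃ a, ψ a = v) ∧ (∀ a, ψ a ≠ u) ∧
      ∃ a b, F.Adj a b ∧ ¬ G.Adj (π (ψ a)) (π (ψ b)))
    (hc : B.card < Gd.card) : N F G u < N F G v := by
  have hvu : π v = u := by rw [← huv, hπ]
  apply cmp (fun φ => π ∘ φ) B Gd
  · intro φ h1 ⟨a, h2⟩ h3 h4
    refine ⟨⟨hπ.injective.comp h1.1, hT φ h1 ⟨a, h2⟩ h3 h4⟩, ⟨a, by simp [h2, huv]⟩, ?_, ?_⟩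
    · intro b hb
      apply h3 b
      rw [← huv, ← hb]; exact (hπ _).symm
    · intro hm
      obtain ⟨-, -, -, a, b, k1, k2⟩ := hG _ hm
      apply k2
      simp only [comp_apply, hπ _]
      exact h1.2 a b k1
  · intro φ ψ _ _ _ _ _ _ _ _ h
    ext a
    exact hπ.injective (congrFun h a)
  · intro ψ h
    obtain ⟨k1, k2, k3, -⟩ := hG ψ h
    exact ⟨k1, k2, k3⟩
  · exact hc

lemma nest {F : SimpleGraph α} {G : SimpleGraph V} {u v : V}
    (hn : ∀ w, G.Adj u w → w ≠ v → G.Adj v w) (ψ : α → V) (h1 : IsC F G ψ) (h2 : ∀ a, ψ a ≠ u)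
    (a b : α) (hab : F.Adj a b) (ha : ψ a = v) (hb : ¬ G.Adj u (ψ b)) : N F G u < N F G v := by
  apply cmp_inv (Equiv.swap u v) (fun x => Equiv.swap_apply_self _ _ _) (Equiv.swap_apply_left _ _)
    ∅ {ψ}
  · intro φ k1 _ k3 _ x y hxy
    have k4 := k1.2 x y hxy
    by_cases hx : φ x = u
    · have hy : φ y ≠ u := fun h => k4.ne (hx.trans h.symm)
      rw [hx, Equiv.swap_apply_left, Equiv.swap_apply_of_ne_of_ne hy (k3 y)]
      exact hn _ (hx ▸ k4) (k3 y)
    · by_cases hy : φ y = u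
      · rw [hy, Equiv.swap_apply_left, Equiv.swap_apply_of_ne_of_ne hx (k3 x)]
        exact (hn _ (hy ▸ k4.symm) (k3 x)).symm
      · rw [Equiv.swap_apply_of_ne_of_ne hx (k3 x), Equiv.swap_apply_of_ne_of_ne hy (k3 y)]
        exact k4
  · intro φ hφ
    rw [mem_singleton] at hφ
    subst hφ
    refine ⟨h1, ⟨a, ha⟩, h2, a, b, hab, ?_⟩
    have hbv : φ b ≠ v := fun h => (h1.2 a b hab).ne (ha.trans h.symm)
    rw [ha, Equiv.swap_apply_right, Equiv.swap_apply_of_ne_of_ne (h2 b) hbv]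
    exact hb
  · simp

noncomputable def many (α : Type) [Fintype α] (L : Finset V) (e : ℕ) : Finset (α → V) :=
  univ.filter (fun φ : α → V => e ≤ (univ.filter (fun a => φ a ∈ L)).card)

lemma many_card (L : Finset V) (e : ℕ) :
    (many α L e).card ≤ 2 ^ Fintype.card α *
      (L.card ^ e * Fintype.card V ^ (Fintype.card α - e)) := by
  have hs : many α L e ⊆ (powersetCard e (univ : Finset α)).biUnion
      (fun T => Fintype.piFinset (fun a => if a ∈ T then L else univ)) := by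
    intro φ h
    simp only [many, mem_filter, mem_univ, true_and] at h
    obtain ⟨T, h1, h2⟩ := exists_subset_card_eq h
    simp only [mem_biUnion, mem_powersetCard, Fintype.mem_piFinset]
    refine ⟨T, ⟨subset_univ _, h2⟩, fun a => ?_⟩
    split_ifs with ha
    · simpa using h1 ha
    · simp
  refine (card_le_card hs).trans (card_biUnion_le.trans ?_)
  have h3 : ∀ T ∈ powersetCard e (univ : Finset α),
      (Fintype.piFinset (fun a => if a ∈ T then L else univ)).card ≤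
        L.card ^ e * Fintype.card V ^ (Fintype.card α - e) := by
    intro T hT
    rw [mem_powersetCard] at hT
    rw [Fintype.card_piFinset]
    simp only [apply_ite card, card_univ]
    rw [prod_ite]
    simp only [prod_const, filter_mem_eq_inter, univ_inter, hT.2]
    rw [filter_not, filter_mem_eq_inter, univ_inter, card_univ_sdiff, hT.2]
  refine (sum_le_card_nsmul _ _ _ h3).trans ?_
  rw [smul_eq_mul]
  apply Nat.mul_le_mul_right
  rw [← card_univ, ← card_powerset]
  exact card_le_card (fun T hT => by simp)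

lemma mem_many {L : Finset V} {e : ℕ} {φ : α → V} (T : Finset α) (h1 : e ≤ T.card)
    (h2 : ∀ a ∈ T, φ a ∈ L) : φ ∈ many α L e := by
  simp only [many, mem_filter, mem_univ, true_and]
  exact h1.trans (card_le_card (fun a ha => by simp [h2 a ha]))

omit [Fintype V] in
lemma pool [DecidableEq α] {F : SimpleGraph α} {G : SimpleGraph V} (P : α → Finset V)
    (hd : ∀ a b, a ≠ b → ∀ x ∈ P a, ∀ y ∈ P b, x ≠ y)
    (ha : ∀ a b, F.Adj a b → ∀ x ∈ P a, ∀ y ∈ P b, G.Adj x y) (φ : α → V)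
    (h : φ ∈ Fintype.piFinset P) : IsC F G φ := by
  rw [Fintype.mem_piFinset] at h
  refine ⟨fun a b hab => ?_, fun a b hab => ha a b hab _ (h a) _ (h b)⟩
  by_contra hne
  exact hd a b hne _ (h a) _ (h b) hab

omit [Fintype V] in
lemma pool_card [DecidableEq α] (P : α → Finset V) (T : Finset α) (w : ℕ) (h1 : ∀ a ∈ T, (P a).card = 1)
    (h2 : ∀ a ∉ T, (P a).card = w) :
    (Fintype.piFinset P).card = w ^ (Fintype.card α - T.card) := by
  rw [Fintype.card_piFinset, ← prod_mul_prod_compl T, prod_eq_one h1, one_mul,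
    prod_congr rfl (fun a ha => h2 a (by simpa using ha)), prod_const, card_compl]

lemma num (f l c w e n k : ℕ) (hl : 1 ≤ l) (hc : 1 ≤ c) (he : e + 1 ≤ f) (hk : k ≤ l)
    (hn : n ≤ c * w) (hw : 2 ^ f * (l ^ f * c ^ f) < w) :
    2 ^ f * (k ^ (e + 1) * n ^ (f - (e + 1))) < w ^ (f - e) := by
  have h0 : f - e = (f - (e + 1)) + 1 := by omega
  have hw0 : 0 < w := by omega
  rw [h0, pow_succ w]
  have h1 : k ^ (e + 1) ≤ l ^ f := (Nat.pow_le_pow_left hk _).trans (Nat.pow_le_pow_right hl he)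
  have h2 : n ^ (f - (e + 1)) ≤ c ^ f * w ^ (f - (e + 1)) := by
    refine (Nat.pow_le_pow_left hn _).trans ?_
    rw [mul_pow]
    exact Nat.mul_le_mul_right _ (Nat.pow_le_pow_right hc (by omega))
  calc 2 ^ f * (k ^ (e + 1) * n ^ (f - (e + 1)))
      ≤ 2 ^ f * (l ^ f * (c ^ f * w ^ (f - (e + 1)))) :=
        Nat.mul_le_mul_left _ (Nat.mul_le_mul h1 h2)
    _ = w ^ (f - (e + 1)) * (2 ^ f * (l ^ f * c ^ f)) := by ring
    _ < w ^ (f - (e + 1)) * w := mul_lt_mul_of_pos_left hw (pow_pos hw0 _)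

omit [Fintype V] in
/-- A copy of `F` using a prescribed edge, the other vertices lying in a clique. -/
lemma edge_copy {F : SimpleGraph α} {G : SimpleGraph V} (C : Finset V) (x y : V) (r s : α)
    (hrs : r ≠ s) (hC : ∀ z ∈ C, ∀ z' ∈ C, z ≠ z' → G.Adj z z') (hx : ∀ z ∈ C, G.Adj x z)
    (hy : ∀ z ∈ C, G.Adj y z) (hxy : G.Adj x y) (hc : Fintype.card α ≤ C.card) :
    ∃ ψ : α → V, IsC F G ψ ∧ ψ r = x ∧ ψ s = y ∧ ∀ a, ψ a = x ∨ ψ a = y ∨ ψ a ∈ C := by
  obtain ⟨g, hg⟩ := Function.Embedding.exists_of_card_le_finset hc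
  have hg' : ∀ a, g a ∈ C := fun a => hg ⟨a, rfl⟩
  let ψ : α → V := fun a => if a = r then x else if a = s then y else g a
  have key : ∀ a b, a ≠ b → G.Adj (ψ a) (ψ b) := by
    intro a b hab
    simp only [ψ]
    split_ifs with h1 h2 h3 h4 h5 h6 h7 h8
    · exact absurd (h1.trans h2.symm) hab
    · exact hxy
    · exact hx _ (hg' _)
    · exact hxy.symm
    · exact absurd (h4.trans h6.symm) hab
    · exact hy _ (hg' _)
    · exact (hx _ (hg' _)).symm
    · exact (hy _ (hg' _)).symm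
    · exact hC _ (hg' _) _ (hg' _) (fun h => hab (g.injective h))
  refine ⟨ψ, ⟨fun a b h => ?_, fun a b h => key a b h.ne⟩, by simp [ψ], by simp [ψ, hrs.symm], ?_⟩
  · by_contra hab
    exact (key a b hab).ne h
  · intro a
    simp only [ψ]
    split_ifs
    · exact Or.inl rfl
    · exact Or.inr (Or.inl rfl)
    · exact Or.inr (Or.inr (hg' a))

end Pool.Agent.H.MP_bf8eef_co
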