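import Pool.Agent.H.MP_bf8eef_co.A

set_option autoImplicit false

namespace Pool.Agent.H.MP_bf8eef_co

open Finset Function Sum
open scoped Classical

def hh (d M t : ℕ) : ℕ := (d - t + 1) * M

def R (d M t p : ℕ) : Prop := p ≤ t ∨ (t < d ∧ hh d M t ≤ p + (d - t) ∧ p < hh d M t)

lemma hh_succ {d t : ℕ} (M : ℕ) (h : t < d) : hh d M t = hh d M (t + 1) + M := by
  unfold hh
  have : d - t = d - (t + 1) + 1 := by omega
  rw [this]; ring

lemma hh_lt {d t t' : ℕ} (M : ℕ) (h : t < t') (h' : t' ≤ d) : hh d M t' + M ≤ hh d M t := by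
  unfold hh
  have : d - t' + 1 + 1 ≤ d - t + 1 := by omega
  calc (d - t' + 1) * M + M = (d - t' + 1 + 1) * M := by ring
    _ ≤ _ := Nat.mul_le_mul_right _ this

lemma hh_ge (d M t : ℕ) : M ≤ hh d M t := by
  unfold hh
  exact Nat.le_mul_of_pos_left _ (by omega)

lemma hh_le (d M t : ℕ) : hh d M t ≤ hh d M 0 := by
  unfold hh
  exact Nat.mul_le_mul_right _ (by omega)

abbrev VV (q : ℕ) : Type := Fin q ⊕ Fin q

def adj (d M q : ℕ) : VV q → VV q → Prop
  | inl _, inl _ => False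
  | inl t, inr p => R d M t p
  | inr p, inl t => R d M t p
  | inr p, inr p' => p.val ≠ p'.val

def GG (d M q : ℕ) : SimpleGraph (VV q) where
  Adj := adj d M q
  symm := ⟨by rintro (x | x) (y | y) h <;> simp only [adj] at h ⊢ <;> first | exact h | exact h.symm⟩
  loopless := ⟨by rintro (x | x) h <;> simp [adj] at h⟩

variable {d M q : ℕ}

@[simp] lemma GG_ll (x y : Fin q) : (GG d M q).Adj (inl x) (inl y) ↔ False := Iff.rfl
@[simp] lemma GG_lr (x y : Fin q) : (GG d M q).Adj (inl x) (inr y) ↔ R d M x y := Iff.rfl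
@[simp] lemma GG_rl (x y : Fin q) : (GG d M q).Adj (inr x) (inl y) ↔ R d M y x := Iff.rfl
@[simp] lemma GG_rr (x y : Fin q) : (GG d M q).Adj (inr x) (inr y) ↔ x.val ≠ y.val := Iff.rfl

def sd (q : ℕ) (b : Bool) (x : Fin q) : VV q := if b then inr x else inl x

noncomputable def PP (q : ℕ) (b : Bool) (a w : ℕ) : Finset (VV q) :=
  (univ.filter (fun p : Fin q => a ≤ p.val ∧ p.val < a + w)).image (sd q b)

lemma mem_PP {b : Bool} {a w : ℕ} {x : VV q} :
    x ∈ PP q b a w ↔ ∃ p : Fin q, a ≤ p.val ∧ p.val < a + w ∧ sd q b p = x := by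
  simp [PP, and_assoc]

lemma PP_card (b : Bool) {a w : ℕ} (h : a + w ≤ q) : (PP q b a w).card = w := by
  unfold PP
  rw [card_image_of_injective _ (by intro x y h; cases b <;> simpa [sd] using h)]
  rw [← card_map Fin.valEmbedding]
  have : (univ.filter (fun p : Fin q => a ≤ p.val ∧ p.val < a + w)).map Fin.valEmbedding =
      Ico a (a + w) := by
    ext z
    simp only [mem_map, mem_filter, mem_univ, true_and, Fin.valEmbedding_apply, mem_Ico]
    constructor
    · rintro ⟨p, h1, rfl⟩; exact h1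
    · intro h1; exact ⟨⟨z, by omega⟩, h1, rfl⟩
  rw [this]; simp

lemma pool2 {α : Type} [Fintype α] [DecidableEq α] {F : SimpleGraph α} (sb : α → Bool) (st wd : α → ℕ)
    (hd : ∀ a b, a ≠ b → sb a = sb b → st a + wd a ≤ st b ∨ st b + wd b ≤ st a)
    (h1 : ∀ a b, F.Adj a b → sb a = false → sb b = true ∧
      ∀ x p, st a ≤ x → x < st a + wd a → st b ≤ p → p < st b + wd b → R d M x p)
    (φ : α → VV q) (h : φ ∈ Fintype.piFinset (fun a => PP q (sb a) (st a) (wd a))) :
    IsC F (GG d M q) φ := by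
  refine pool _ ?_ ?_ φ h
  · intro a b hab x hx y hy hxy
    obtain ⟨p, k1, k2, rfl⟩ := mem_PP.1 hx
    obtain ⟨p', k3, k4, k5⟩ := mem_PP.1 hy
    rw [← hxy] at k5
    have : sb a = sb b ∧ p' = p := by
      revert k5
      cases sb a <;> cases sb b <;> simp [sd]
    obtain ⟨k6, rfl⟩ := this
    have := hd a b hab k6
    omega
  · intro a b hab x hx y hy
    obtain ⟨p, k1, k2, rfl⟩ := mem_PP.1 hx
    obtain ⟨p', k3, k4, rfl⟩ := mem_PP.1 hy
    have k5 := hd a b hab.ne
    have k6 := h1 a b hab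
    have k7 := h1 b a hab.symm
    revert k5 k6 k7
    cases sb a <;> cases sb b <;> simp only [sd] <;> intro k5 k6 k7
    · simp at k6
    · simpa using (k6 trivial).2 _ _ k1 k2 k3 k4
    · simpa using (k7 trivial).2 _ _ k3 k4 k1 k2
    · have := k5 trivial
      simp only [if_true, GG_rr]
      omega

noncomputable def CI (d M q t : ℕ) : Finset (VV q) :=
  PP q true 0 (min t d + 1) ∪ PP q true (hh d M t - (d - t)) (d - t)

lemma CI_card (hq : q = hh d M 0) (hM : 2 * d < M) (t : ℕ) : (CI d M q t).card = d + 1 := by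
  have h1 := hh_ge d M t
  have h2 := hh_le d M t
  unfold CI
  rw [card_union_of_disjoint, PP_card _ (by omega), PP_card _ (by omega)]
  · omega
  · rw [disjoint_left]
    intro x hx hy
    obtain ⟨p, k1, k2, rfl⟩ := mem_PP.1 hx
    obtain ⟨p', k3, k4, k5⟩ := mem_PP.1 hy
    have : p' = p := by simpa [sd] using k5
    subst this
    omega

lemma mem_CI (hM : 2 * d < M) {t : ℕ} {x : VV q} : x ∈ CI d M q t ↔
    ∃ p : Fin q, x = inr p ∧ R d M t p ∧ (p.val ≤ d ∨ t < p.val) := by
  have h1 := hh_ge d M t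
  unfold CI R
  simp only [mem_union, mem_PP, sd, if_true]
  constructor
  · rintro (⟨p, k1, k2, rfl⟩ | ⟨p, k1, k2, rfl⟩) <;> exact ⟨p, rfl, by omega, by omega⟩
  · rintro ⟨p, rfl, k1, k2⟩
    by_cases h : p.val ≤ t
    · exact Or.inl ⟨p, by omega, by omega, rfl⟩
    · exact Or.inr ⟨p, by omega, by omega, rfl⟩

lemma copyI {n : ℕ} (F : SimpleGraph (Fin n)) (hq : q = hh d M 0) (hM : 2 * d < M)
    (hd : n + 1 ≤ d) (r s : Fin n) (hrs : r ≠ s) (t p : Fin q) (h : R d M t p) (u : VV q)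
    (h1 : u ≠ inl t) (h2 : u ≠ inr p) :
    ∃ ψ : Fin n → VV q, IsC F (GG d M q) ψ ∧ ψ r = inl t ∧ ψ s = inr p ∧ ∀ a, ψ a ≠ u := by
  obtain ⟨ψ, k1, k2, k3, k4⟩ := edge_copy (F := F) (G := GG d M q)
    (((CI d M q t).erase (inr p)).erase u) (inl t) (inr p) r s hrs
    (by
      intro z hz z' hz' hne
      obtain ⟨a, rfl, -⟩ := (mem_CI hM).1 (mem_of_mem_erase (mem_of_mem_erase hz))
      obtain ⟨b, rfl, -⟩ := (mem_CI hM).1 (mem_of_mem_erase (mem_of_mem_erase hz'))
      rw [GG_rr]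
      intro h; exact hne (by rw [Fin.ext h]))
    (by
      intro z hz
      obtain ⟨a, rfl, h, -⟩ := (mem_CI hM).1 (mem_of_mem_erase (mem_of_mem_erase hz))
      exact h)
    (by
      intro z hz
      have := ne_of_mem_erase (mem_of_mem_erase hz)
      obtain ⟨a, rfl, -⟩ := (mem_CI hM).1 (mem_of_mem_erase (mem_of_mem_erase hz))
      rw [GG_rr]
      intro h; exact this (by rw [Fin.ext h]))
    h
    (by
      have e1 := CI_card hq hM t
      have e2 := pred_card_le_card_erase (s := CI d M q t) (a := inr p)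
      have e3 := pred_card_le_card_erase (s := (CI d M q t).erase (inr p)) (a := u)
      rw [Fintype.card_fin]
      omega)
  refine ⟨ψ, k1, k2, k3, fun a ha => ?_⟩
  rcases k4 a with k | k | k
  · exact h1 (ha.symm.trans k)
  · exact h2 (ha.symm.trans k)
  · exact ne_of_mem_erase k ha

section steps
variable {n : ℕ} {F : SimpleGraph (Fin n)} (hq : q = hh d M 0) (hM : 2 * d < M)
  (hd : n + 1 ≤ d) {r s : Fin n} (hrs : F.Adj r s)
include hq hM hd hrs

lemma step2 (t t' : Fin q) (h : t'.val = t.val + 1) (ht : d ≤ t.val) :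
    N F (GG d M q) (inl t) < N F (GG d M q) (inl t') := by
  obtain ⟨ψ, k1, k2, k3, k4⟩ := copyI F hq hM hd r s hrs.ne t' t' (Or.inl le_rfl) (inl t)
    (by intro e; have := congrArg Fin.val (inl.inj e); omega) (by simp)
  refine nest ?_ ψ k1 k4 r s hrs k2 ?_
  · rintro (x | x) hx _
    · exact hx.elim
    · simp only [GG_lr, R] at hx ⊢; omega
  · rw [k3]; simp only [GG_lr, R]; omega

lemma step3 (t : Fin q) (h : t.val + 1 = q) :
    N F (GG d M q) (inl t) < N F (GG d M q) (inr t) := by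
  have h1 := hh_ge d M 0
  obtain ⟨ψ, k1, k2, k3, k4⟩ := copyI F hq hM hd r s hrs.ne ⟨0, by omega⟩ t
    (by simp only [R]; omega) (inl t)
    (by intro e; have := congrArg Fin.val (inl.inj e); simp at this; omega) (by simp)
  refine nest ?_ ψ k1 k4 s r hrs.symm k3 ?_
  · rintro (x | x) hx hne
    · exact hx.elim
    · rw [GG_rr]
      intro e; exact hne (by rw [Fin.ext e])
  · rw [k2]; simp

lemma step4 (l l' : Fin q) (h : l'.val = l.val + 1) (hl : ∀ x : Fin q, R d M x l' → R d M x l) :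
    N F (GG d M q) (inr l') < N F (GG d M q) (inr l) := by
  obtain ⟨ψ, k1, k2, k3, k4⟩ := copyI F hq hM hd r s hrs.ne l l (Or.inl le_rfl) (inr l')
    (by simp) (by intro e; have := congrArg Fin.val (inr.inj e); omega)
  refine nest ?_ ψ k1 k4 s r hrs.symm k3 ?_
  · rintro (x | x) hx hne
    · exact hl x hx
    · rw [GG_rr]
      intro e; exact hne (by rw [Fin.ext e])
  · rw [k2]
    have := hh_ge d M l
    simp only [GG_rl, R]; omega

end steps

end Pool.Agent.H.MP_bf8eef_co
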