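import Pool.Agent.H.MP_bf8eef_co.B

set_option autoImplicit false

namespace Pool.Agent.H.MP_bf8eef_co

open Finset Function Sum
open scoped Classical

variable {d M q : ℕ}

def sg (d M t p : ℕ) : ℕ :=
  if p = t + 1 then hh d M (t + 1) + M - (d - t)
  else if p = hh d M (t + 1) + M - (d - t) then t + 1
  else if hh d M (t + 1) + M - (d - t) < p ∧ p < hh d M (t + 1) + M then p - M
  else if hh d M (t + 1) - (d - t) < p ∧ p < hh d M (t + 1) then p + M
  else p

lemma sg_sg (hM : 2 * d < M) {t : ℕ} (ht : t < d) (p : ℕ) : sg d M t (sg d M t p) = p := by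
  have h1 := hh_ge d M (t + 1)
  unfold sg
  split_ifs <;> omega

lemma sg_lt (hq : q = hh d M 0) (hM : 2 * d < M) {t : ℕ} (ht : t < d) {p : ℕ} (hp : p < q) :
    sg d M t p < q := by
  have h1 := hh_ge d M (t + 1)
  have h2 := hh_le d M t
  have h3 := hh_succ M ht
  unfold sg
  split_ifs <;> omega

lemma sg_R (hM : 2 * d < M) {t : ℕ} (ht : t < d) {p : ℕ} (h : R d M t p) :
    R d M (t + 1) (sg d M t p) := by
  have h1 := hh_ge d M (t + 1)
  have h3 := hh_succ M ht
  unfold sg
  unfold R at h ⊢
  split_ifs <;> omega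

lemma sg_brk (hM : 2 * d < M) {t : ℕ} (ht : t < d) {x p : ℕ} (hx : x ≠ t) (hx' : x ≠ t + 1)
    (h : R d M x p) (h' : ¬ R d M x (sg d M t p)) :
    R d M (t + 1) p ∧ (p ≤ d ∨ t + 1 < p) ∧ ¬ R d M t p := by
  have h1 := hh_ge d M (t + 1)
  have h3 := hh_succ M ht
  have h4 : x < t → hh d M t + M ≤ hh d M x := fun h => hh_lt M h ht.le
  have h5 : x < d → t + 1 < x → hh d M x + M ≤ hh d M (t + 1) := fun h h' => hh_lt M h' h.le
  unfold sg at h'
  unfold R at h h' ⊢
  split_ifs at h' <;> omega

def bl (W : ℕ) {n : ℕ} (a : Fin n) : ℕ := (a.val + 1) * W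

lemma bl_ge (W : ℕ) {n : ℕ} (a : Fin n) : W ≤ bl W a := Nat.le_mul_of_pos_left _ (by omega)

lemma bl_le (W : ℕ) {n : ℕ} (a : Fin n) : bl W a + W + W ≤ (n + 2) * W := by
  unfold bl
  calc (a.val + 1) * W + W + W = (a.val + 3) * W := by ring
    _ ≤ _ := Nat.mul_le_mul_right _ (by omega)

lemma bl_ne (W : ℕ) {n : ℕ} {a b : Fin n} (h : a ≠ b) :
    bl W a + W ≤ bl W b ∨ bl W b + W ≤ bl W a := by
  unfold bl
  have h1 : a.val ≠ b.val := fun e => h (Fin.ext e)
  rcases Nat.lt_or_gt_of_ne h1 with h2 | h2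
  · left
    calc (a.val + 1) * W + W = (a.val + 2) * W := by ring
      _ ≤ _ := Nat.mul_le_mul_right _ (by omega)
  · right
    calc (b.val + 1) * W + W = (b.val + 2) * W := by ring
      _ ≤ _ := Nat.mul_le_mul_right _ (by omega)

section steps
variable {n W : ℕ} {F : SimpleGraph (Fin n)} (hq : q = hh d M 0) (hW : 2 * d < W)
  (hMW : M = (n + 2) * W) (hd : n + 1 ≤ d) {r s c : Fin n} (hrs : F.Adj r s) (hsc : F.Adj s c)
  (hrc : ¬ F.Adj r c) (hrc' : r ≠ c)
  (hbig : ∀ k e, k ≤ 2 * d + 4 → e + 1 ≤ n →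
    2 ^ n * (k ^ (e + 1) * (q + q) ^ (n - (e + 1))) < W ^ (n - e))
include hq hW hMW hd hrs hsc hrc hrc' hbig

lemma step1 (hmin : ∀ a, F.degree r ≤ F.degree a) (t t' : Fin q) (h : t'.val = t.val + 1)
    (ht : t.val < d) : N F (GG d M q) (inl t) < N F (GG d M q) (inl t') := by
  have hM : 2 * d < M := by have := bl_le W r; omega
  have htt : t ≠ t' := fun e => by rw [e] at h; omega
  let π : VV q → VV q := Sum.map (Equiv.swap t t')
    (fun p => ⟨sg d M t p, sg_lt hq hM ht p.2⟩)
  have hπ : Involutive π := by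
    rintro (x | x)
    · simp [π]
    · simp only [π, Sum.map_inr, inr.injEq]
      exact Fin.ext (sg_sg hM ht _)
  let L : Finset (VV q) := insert (inl t) (CI d M q t ∪ CI d M q t')
  have hL : L.card ≤ 2 * d + 4 := by
    have e1 := CI_card hq hM t
    have e2 := CI_card hq hM t'
    have e3 := card_union_le (CI d M q t) (CI d M q t')
    have e4 := card_insert_le (inl t) (CI d M q t ∪ CI d M q t')
    simp only [L]; omega
  have H1 := hh_ge d M (t + 1)
  have H2 := hh_le d M t
  have H3 := hh_succ M ht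
  let j : Fin n → ℕ := fun a => Equiv.swap s.val (t.val + 1) a.val
  have j1 : ∀ a, j a ≤ d := by
    intro a
    have := a.2
    have := s.2
    simp only [j, Equiv.swap_apply_def]
    split_ifs <;> omega
  have j2 : ∀ a b, a ≠ b → j a ≠ j b := fun a b hab e =>
    hab (Fin.ext ((Equiv.swap s.val (t.val + 1)).injective e))
  have j3 : j s = t.val + 1 := Equiv.swap_apply_left _ _
  let sb : Fin n → Bool := fun a => decide (a ≠ r ∧ a ≠ c)
  let st : Fin n → ℕ := fun a => if a = r then t.val + 1 else if F.Adj r a then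
    (if j a ≤ t.val + 1 then j a else hh d M (t + 1) - (d + 1 - j a))
    else if a = c then hh d M (t + 1) else bl W a
  let wd : Fin n → ℕ := fun a => if a = r ∨ F.Adj r a then 1 else W
  have hcs : ∀ a, (a = r ∧ sb a = false ∧ st a = t.val + 1 ∧ wd a = 1) ∨
      (a = c ∧ sb a = false ∧ st a = hh d M (t + 1) ∧ wd a = W) ∨
      (F.Adj r a ∧ sb a = true ∧ wd a = 1 ∧ ((j a ≤ t.val + 1 ∧ st a = j a) ∨
        (t.val + 1 < j a ∧ st a = hh d M (t + 1) - (d + 1 - j a)))) ∨
      (¬ F.Adj r a ∧ a ≠ r ∧ sb a = true ∧ st a = bl W a ∧ wd a = W) := by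
    intro a
    by_cases h1 : a = r
    · left; simp [sb, st, wd, h1]
    by_cases h2 : a = c
    · right; left; subst h2; simp [sb, st, wd, h1, hrc]
    by_cases h3 : F.Adj r a
    · right; right; left
      simp only [sb, st, wd, h1, h2, h3]
      by_cases h4 : j a ≤ t.val + 1
      · simp [h4, h1, h2]
      · simp [h4, h1, h2]; omega
    · right; right; right; simp [sb, st, wd, h1, h2, h3]
  have hdeg : F.degree r + 2 ≤ n := by
    have : insert c (insert r (F.neighborFinset r)) ⊆ univ := subset_univ _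
    have := card_le_card this
    rw [card_insert_of_notMem (by simp [hrc, hrc'.symm]), card_insert_of_notMem (by simp)] at this
    simp only [SimpleGraph.card_neighborFinset_eq_degree, card_univ, Fintype.card_fin] at this
    omega
  apply cmp_inv π hπ (by simp [π]) (many (Fin n) L (F.degree r + 2))
    (Fintype.piFinset (fun a => PP q (sb a) (st a) (wd a)))
  · intro φ k1 ⟨a0, k2⟩ k3 k4 a b hab
    by_contra hne
    apply k4
    have brk : ∀ x y, (GG d M q).Adj x y → x ≠ inl t' → y ≠ inl t' →
        ¬ (GG d M q).Adj (π x) (π y) → ∃ z, (z = x ∨ z = y) ∧ z ∈ CI d M q t' ∧ z ≠ inl t ∧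
          ¬ (GG d M q).Adj (inl t) z := by
      have aux : ∀ x p : Fin q, R d M x p → x ≠ t' → ¬ (GG d M q).Adj (π (inl x)) (π (inr p)) →
          inr p ∈ CI d M q t' ∧ ¬ (GG d M q).Adj (inl t) (inr p) := by
        intro x p m1 m2 m3
        by_cases hx : x = t
        · subst hx
          exfalso; apply m3
          simp only [π, Sum.map_inl, Sum.map_inr, Equiv.swap_apply_left, GG_lr, h]
          exact sg_R hM ht m1
        · simp only [π, Sum.map_inl, Sum.map_inr, Equiv.swap_apply_of_ne_of_ne hx m2, GG_lr] at m3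
          obtain ⟨m4, m5, m6⟩ := sg_brk hM ht (fun e => hx (Fin.ext e))
            (fun e => m2 (Fin.ext (by omega))) m1 m3
          exact ⟨(mem_CI hM).2 ⟨p, rfl, by rw [h]; exact m4, by omega⟩, m6⟩
      rintro (x | x) (y | y) m1 m2 m3 m4
      · exact m1.elim
      · obtain ⟨m5, m6⟩ := aux x y m1 (by simpa using m2) m4
        exact ⟨inr y, Or.inr rfl, m5, by simp, m6⟩
      · obtain ⟨m5, m6⟩ := aux y x m1 (by simpa using m3) (fun e => m4 e.symm)
        exact ⟨inr x, Or.inl rfl, m5, by simp, m6⟩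
      · exfalso; apply m4
        simp only [π, Sum.map_inr, GG_rr] at m1 ⊢
        intro e
        apply m1
        rw [← sg_sg hM ht x, e, sg_sg hM ht]
    obtain ⟨z, m1, m2, m3, m4⟩ := brk _ _ (k1.2 a b hab) (k3 a) (k3 b) hne
    obtain ⟨a1, rfl⟩ : ∃ a1, φ a1 = z := by
      rcases m1 with rfl | rfl
      · exact ⟨a, rfl⟩
      · exact ⟨b, rfl⟩
    apply mem_many (insert a1 (insert a0 (F.neighborFinset a0)))
    · rw [card_insert_of_notMem, card_insert_of_notMem (by simp)]
      · have := hmin a0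
        simp only [SimpleGraph.card_neighborFinset_eq_degree]; omega
      · simp only [mem_insert, SimpleGraph.mem_neighborFinset, not_or]
        refine ⟨fun e => m3 (e ▸ k2), fun e => m4 (k2 ▸ k1.2 _ _ e)⟩
    · intro x hx
      simp only [mem_insert, SimpleGraph.mem_neighborFinset] at hx
      simp only [L, mem_insert, mem_union]
      rcases hx with rfl | rfl | hx
      · exact Or.inr (Or.inr m2)
      · exact Or.inl k2
      · have m5 := k1.2 _ _ hx
        rw [k2] at m5
        right; left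
        rcases hφ : φ x with y | y
        · rw [hφ] at m5; exact m5.elim
        · rw [hφ] at m5
          exact (mem_CI hM).2 ⟨y, rfl, m5, by omega⟩
  · intro ψ hψ
    have hψ' := Fintype.mem_piFinset.1 hψ
    refine ⟨pool2 sb st wd ?_ ?_ ψ hψ, ⟨r, ?_⟩, ?_, s, c, hsc, ?_⟩
    · intro a b hab hsb
      have e1 := j1 a
      have e2 := j1 b
      have e3 := j2 a b hab
      have e4 := bl_ge W a
      have e5 := bl_ge W b
      have e6 := bl_le W a
      have e7 := bl_le W b
      have e8 := bl_ne W hab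
      rcases hcs a with ⟨a1, a2, a3, a4⟩ | ⟨a1, a2, a3, a4⟩ | ⟨a1, a2, a3, a4⟩ |
        ⟨a1, a1', a2, a3, a4⟩ <;>
      rcases hcs b with ⟨b1, b2, b3, b4⟩ | ⟨b1, b2, b3, b4⟩ | ⟨b1, b2, b3, b4⟩ |
        ⟨b1, b1', b2, b3, b4⟩ <;>
      first
        | exact absurd (a1.trans b1.symm) hab
        | (rw [a2, b2] at hsb; exact absurd hsb (by decide))
        | omega
    · intro a b hab hsb
      have e2 := j1 b
      have e5 := bl_ge W b
      have e7 := bl_le W b
      rcases hcs a with ⟨a1, a2, a3, a4⟩ | ⟨a1, a2, a3, a4⟩ | ⟨a1, a2, a3, a4⟩ |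
        ⟨a1, a1', a2, a3, a4⟩ <;>
      rcases hcs b with ⟨b1, b2, b3, b4⟩ | ⟨b1, b2, b3, b4⟩ | ⟨b1, b2, b3, b4⟩ |
        ⟨b1, b1', b2, b3, b4⟩ <;>
      first
        | exact absurd (a1.trans b1.symm) hab.ne
        | (rw [a2] at hsb; exact absurd hsb (by decide))
        | (subst a1; subst b1; first | exact absurd hab hrc | exact absurd hab.symm hrc)
        | (subst a1; exact absurd hab b1)
        | (refine ⟨b2, fun x p m1 m2 m3 m4 => ?_⟩
           have : x = t.val + 1 := by omega
           subst this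
           unfold R; omega)
        | (refine ⟨b2, fun x p m1 m2 m3 m4 => ?_⟩
           unfold R; omega)
    · obtain ⟨p, m1, m2, m3⟩ := mem_PP.1 (hψ' r)
      simp only [sb, st, wd, if_true, true_or, sd] at m1 m2 m3
      rw [← m3]
      simp only [ne_eq, not_true, false_and, decide_false, Bool.false_eq_true, if_false, inl.injEq]
      exact Fin.ext (by omega)
    · intro a e
      obtain ⟨p, m1, m2, m3⟩ := mem_PP.1 (hψ' a)
      rw [e] at m3
      rcases hcs a with ⟨a1, a2, a3, a4⟩ | ⟨a1, a2, a3, a4⟩ | ⟨a1, a2, a3, a4⟩ |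
        ⟨a1, a1', a2, a3, a4⟩ <;> rw [a2] at m3 <;> simp [sd] at m3 <;> subst m3 <;> omega
    · obtain ⟨p, m1, m2, m3⟩ := mem_PP.1 (hψ' s)
      obtain ⟨x, m4, m5, m6⟩ := mem_PP.1 (hψ' c)
      have s1 : s ≠ r := hrs.ne'
      have s2 : s ≠ c := hsc.ne
      have s3 : c ≠ r := hrc'.symm
      simp only [sb, st, wd, s1, s3, hrs, hrc, j3, if_true, if_false, le_refl, or_true, or_false,
        sd] at m1 m2 m3 m4 m5 m6
      simp [s1, s2] at m3 m6
      have e7 := bl_le W r
      rw [← m3, ← m6]
      have x1 : x ≠ t := fun e => by rw [e] at m4; omega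
      have x2 : x ≠ t' := fun e => by rw [e] at m4; omega
      simp only [π, Sum.map_inl, Sum.map_inr, Equiv.swap_apply_of_ne_of_ne x1 x2, GG_rl]
      have : p.val = t.val + 1 := by omega
      unfold R sg
      rw [if_pos this]
      omega
  · refine (many_card L _).trans_lt ?_
    rw [pool_card _ (insert r (F.neighborFinset r)) W]
    · rw [card_insert_of_notMem (s := F.neighborFinset r) (by simp)]
      simp only [Fintype.card_fin, Fintype.card_sum, SimpleGraph.card_neighborFinset_eq_degree]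
      exact hbig _ (F.degree r + 1) hL hdeg
    · intro a ha
      have e1 := j1 a
      simp only [mem_insert, SimpleGraph.mem_neighborFinset] at ha
      rcases hcs a with ⟨a1, a2, a3, a4⟩ | ⟨a1, a2, a3, a4⟩ | ⟨a1, a2, a4, a3⟩ |
        ⟨a1, a1', a2, a3, a4⟩
      · rw [PP_card _ (by omega), a4]
      · subst a1; exact absurd ha (by simp [hrc, hrc'.symm])
      · rw [PP_card _ (by omega), a4]
      · exact absurd ha (by simp [a1, a1'])
    · intro a ha
      have e7 := bl_le W a
      simp only [mem_insert, SimpleGraph.mem_neighborFinset, not_or] at ha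
      rcases hcs a with ⟨a1, a2, a3, a4⟩ | ⟨a1, a2, a3, a4⟩ | ⟨a1, a2, a4, a3⟩ |
        ⟨a1, a1', a2, a3, a4⟩
      · exact absurd a1 ha.1
      · rw [PP_card _ (by omega), a4]
      · exact absurd a1 ha.2
      · rw [PP_card _ (by omega), a4]

lemma step5 (l l' j : Fin q) (h : l'.val = l.val + 1) (h1 : R d M j l') (h2 : ¬ R d M j l) :
    N F (GG d M q) (inr l') < N F (GG d M q) (inr l) := by
  have hM : 2 * d < M := by have := bl_le W r; omega
  have hj : j.val < d ∧ hh d M j = l.val + 1 + (d - j.val) := by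
    unfold R at h1 h2; omega
  have H1 := hh_ge d M (j + 1)
  have H3 := hh_succ M hj.1
  have hll : l ≠ l' := fun e => by rw [e] at h; omega
  have hjl : j ≠ l := fun e => by rw [← e] at hj; omega
  have hR : ∀ x : Fin q, x ≠ j → R d M x l' → R d M x l := by
    intro x hx m
    have hx' : x.val ≠ j.val := fun e => hx (Fin.ext e)
    have h4 : x.val < j.val → hh d M j + M ≤ hh d M x := fun h => hh_lt M h hj.1.le
    have h5 : x.val < d → j.val < x.val → hh d M x + M ≤ hh d M j := fun h h' => hh_lt M h' h.le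
    unfold R at m ⊢; omega
  have hnl : ¬ R d M l l' := by unfold R; omega
  have hlll : R d M l l := Or.inl le_rfl
  let π : VV q → VV q := Sum.map id (Equiv.swap l' l)
  let π' : VV q → VV q := Sum.map (Equiv.swap j l) (Equiv.swap l' l)
  have hπ : Involutive π := by rintro (x | x) <;> simp [π]
  have hπ' : Involutive π' := by rintro (x | x) <;> simp [π']
  let L : Finset (VV q) := insert (inr l') (insert (inl j) (insert (inl l) (CI d M q j)))
  have hL : L.card ≤ 2 * d + 4 := by
    have e1 := CI_card hq hM j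
    have e2 := card_insert_le (inl l) (CI d M q j)
    have e3 := card_insert_le (inl j) (insert (inl l) (CI d M q j))
    have e4 := card_insert_le (inr l') (insert (inl j) (insert (inl l) (CI d M q j)))
    simp only [L]; omega
  let sb : Fin n → Bool := fun a => decide (a ≠ s)
  let st : Fin n → ℕ := fun a => if a = s ∨ a = r then l.val else bl W a
  let wd : Fin n → ℕ := fun a => if a = s ∨ a = r then 1 else W
  have hcs : ∀ a, (a = s ∧ sb a = false ∧ st a = l.val ∧ wd a = 1) ∨
      (a = r ∧ sb a = true ∧ st a = l.val ∧ wd a = 1) ∨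
      (a ≠ s ∧ a ≠ r ∧ sb a = true ∧ st a = bl W a ∧ wd a = W) := by
    intro a
    by_cases k1 : a = s
    · left; simp [sb, st, wd, k1]
    by_cases k2 : a = r
    · right; left; subst k2; simp [sb, st, wd, k1]
    · right; right; simp [sb, st, wd, k1, k2]
  have hG : ∀ ψ ∈ Fintype.piFinset (fun a => PP q (sb a) (st a) (wd a)),
      IsC F (GG d M q) ψ ∧ ψ r = inr l ∧ ψ s = inl l ∧ ∀ a, ψ a ≠ inr l' := by
    intro ψ hψ
    have hψ' := Fintype.mem_piFinset.1 hψ
    refine ⟨pool2 sb st wd ?_ ?_ ψ hψ, ?_, ?_, ?_⟩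
    · intro a b hab hsb
      have e6 := bl_le W a
      have e7 := bl_le W b
      have e8 := bl_ne W hab
      rcases hcs a with ⟨a1, a2, a3, a4⟩ | ⟨a1, a2, a3, a4⟩ | ⟨a1, a1', a2, a3, a4⟩ <;>
      rcases hcs b with ⟨b1, b2, b3, b4⟩ | ⟨b1, b2, b3, b4⟩ | ⟨b1, b1', b2, b3, b4⟩ <;>
      first
        | exact absurd (a1.trans b1.symm) hab
        | (rw [a2, b2] at hsb; exact absurd hsb (by decide))
        | omega
    · intro a b hab hsb
      have e7 := bl_le W b
      rcases hcs a with ⟨a1, a2, a3, a4⟩ | ⟨a1, a2, a3, a4⟩ | ⟨a1, a1', a2, a3, a4⟩ <;>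
      rcases hcs b with ⟨b1, b2, b3, b4⟩ | ⟨b1, b2, b3, b4⟩ | ⟨b1, b1', b2, b3, b4⟩ <;>
      first
        | exact absurd (a1.trans b1.symm) hab.ne
        | (rw [a2] at hsb; exact absurd hsb (by decide))
        | (refine ⟨b2, fun x p m1 m2 m3 m4 => ?_⟩
           unfold R; omega)
    · obtain ⟨p, m1, m2, m3⟩ := mem_PP.1 (hψ' r)
      simp only [sb, st, wd, if_true, or_true, sd] at m1 m2 m3
      rw [← m3]
      simp only [ne_eq, hrs.ne, not_false_eq_true, decide_true, if_true, inr.injEq]
      exact Fin.ext (by omega)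
    · obtain ⟨p, m1, m2, m3⟩ := mem_PP.1 (hψ' s)
      simp only [sb, st, wd, if_true, true_or, sd] at m1 m2 m3
      rw [← m3]
      simp only [ne_eq, not_true, decide_false, Bool.false_eq_true, if_false, inl.injEq]
      exact Fin.ext (by omega)
    · intro a e
      have e7 := bl_le W a
      obtain ⟨p, m1, m2, m3⟩ := mem_PP.1 (hψ' a)
      rw [e] at m3
      rcases hcs a with ⟨a1, a2, a3, a4⟩ | ⟨a1, a2, a3, a4⟩ | ⟨a1, a1', a2, a3, a4⟩ <;>
        rw [a2] at m3 <;> simp [sd] at m3 <;> subst m3 <;> omega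
  have edge : ∀ x y, (GG d M q).Adj x y → x ≠ inr l → y ≠ inr l → x ≠ inl j → y ≠ inl j →
      (GG d M q).Adj (π x) (π y) := by
    have aux : ∀ x p : Fin q, R d M x p → p ≠ l → x ≠ j →
        (GG d M q).Adj (π (inl x)) (π (inr p)) := by
      intro x p m1 m2 m3
      by_cases hp : p = l'
      · subst hp
        simp only [π, Sum.map_inl, Sum.map_inr, Equiv.swap_apply_left, GG_lr, id]
        exact hR x m3 m1
      · simpa only [π, Sum.map_inl, Sum.map_inr, Equiv.swap_apply_of_ne_of_ne hp m2, GG_lr, id]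
          using m1
    rintro (x | x) (y | y) m1 m2 m3 m4 m5
    · exact m1.elim
    · exact aux x y m1 (by simpa using m3) (by simpa using m4)
    · exact (aux y x m1 (by simpa using m2) (by simpa using m5)).symm
    · simp only [π, Sum.map_inr, GG_rr] at m1 ⊢
      intro e
      exact m1 (congrArg Fin.val ((Equiv.swap l' l).injective (Fin.ext e)))
  have edge2 : ∀ y, (GG d M q).Adj (inl j) y → y ≠ inr l' → y ≠ inr l →
      (GG d M q).Adj (π (inl j)) (π y) := by
    rintro (y | y) m1 m2 m3
    · exact m1.elim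
    · have m4 : y ≠ l' := by simpa using m2
      have m5 : y ≠ l := by simpa using m3
      simpa only [π, Sum.map_inl, Sum.map_inr, Equiv.swap_apply_of_ne_of_ne m4 m5, GG_lr, id]
          using m1
  have key : ∀ φ, IsC F (GG d M q) φ → (∀ a, φ a ≠ inr l) → φ ∉ many (Fin n) L 3 →
      ¬ IsC F (GG d M q) (π ∘ φ) → ∃ a b, F.Adj a b ∧ φ a = inr l' ∧ φ b = inl j ∧
        (∀ x, F.Adj b x → x = a) ∧ ∀ x, φ x ≠ inl l := by
    intro φ k1 k3 k4 k5
    obtain ⟨a, b, hab, m1, m2⟩ : ∃ a b, F.Adj a b ∧ φ a = inr l' ∧ φ b = inl j := by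
      by_contra hne
      apply k5
      refine ⟨hπ.injective.comp k1.1, fun a b hab => ?_⟩
      have m := k1.2 a b hab
      by_cases ha : φ a = inl j
      · simp only [comp_apply]
        rw [ha] at m ⊢
        exact edge2 _ m (fun e => hne ⟨b, a, hab.symm, e, ha⟩) (k3 b)
      by_cases hb : φ b = inl j
      · simp only [comp_apply]
        rw [hb] at m ⊢
        exact (edge2 _ m.symm (fun e => hne ⟨a, b, hab, e, hb⟩) (k3 a)).symm
      · exact edge _ _ m (k3 a) (k3 b) ha hb
    have three : ∀ x, x ≠ a → x ≠ b → φ x ∉ L := by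
      intro x x1 x2 x3
      apply k4
      apply mem_many {x, a, b}
      · rw [card_insert_of_notMem (by simp [x1, x2]), card_pair hab.ne]
      · intro y hy
        simp only [mem_insert, mem_singleton] at hy
        rcases hy with rfl | rfl | rfl
        · exact x3
        · simp [L, m1]
        · simp [L, m2]
    refine ⟨a, b, hab, m1, m2, fun x hx => ?_, fun x hx => ?_⟩
    · by_contra hne
      apply three x hne hx.ne'
      have m5 := k1.2 _ _ hx
      rw [m2] at m5
      simp only [L, mem_insert]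
      right; right; right
      rcases hφ : φ x with y | y
      · rw [hφ] at m5; exact m5.elim
      · rw [hφ] at m5
        exact (mem_CI hM).2 ⟨y, rfl, m5, by omega⟩
    · apply three x
      · rintro rfl; rw [m1] at hx; simp at hx
      · rintro rfl; rw [m2] at hx; exact hjl (by simpa using hx)
      · simp [L, hx]
  have agree : ∀ x, x ≠ inl j → x ≠ inl l → π' x = π x := by
    rintro (x | x) m1 m2
    · have m4 : x ≠ j := by simpa using m1
      have m5 : x ≠ l := by simpa using m2
      simp [π, π', Equiv.swap_apply_of_ne_of_ne m4 m5]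
    · rfl
  have pu : π (inr l') = inr l := by simp [π]
  have pv : π (inr l) = inr l' := by simp [π]
  have pu' : π' (inr l') = inr l := by simp [π']
  have pj' : π' (inl j) = inl l := by simp [π']
  have pl : π (inl l) = inl l := rfl
  apply cmp (fun φ => if IsC F (GG d M q) (π ∘ φ) then π ∘ φ else π' ∘ φ) (many (Fin n) L 3)
    (Fintype.piFinset (fun a => PP q (sb a) (st a) (wd a)))
  · intro φ k1 ⟨a0, k2⟩ k3 k4
    by_cases k5 : IsC F (GG d M q) (π ∘ φ)
    · simp only [if_pos k5]
      refine ⟨k5, ⟨a0, by simp [k2, pu]⟩, fun a e => k3 a ?_, fun hm => ?_⟩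
      · rw [← pu, ← e]; exact (hπ _).symm
      · obtain ⟨-, m1, m2, -⟩ := hG _ hm
        have m3 := k1.2 _ _ hrs
        rw [← hπ (φ r), ← hπ (φ s)] at m3
        simp only [comp_apply] at m1 m2
        rw [m1, m2, pv, pl] at m3
        exact hnl m3
    · simp only [if_neg k5]
      obtain ⟨a, b, hab, m1, m2, m3, m4⟩ := key φ k1 k3 k4 k5
      refine ⟨⟨hπ'.injective.comp k1.1, fun x y hxy => ?_⟩, ⟨a0, by simp [k2, pu']⟩,
        fun x e => k3 x ?_, fun hm => ?_⟩
      · simp only [comp_apply]
        by_cases hx : x = b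
        · subst hx
          rw [m3 y hxy, m1, m2, pu', pj']; exact hlll
        by_cases hy : y = b
        · subst hy
          rw [m3 x hxy.symm, m1, m2, pu', pj']; exact hlll
        have x1 : φ x ≠ inl j := fun e => hx (k1.1 (e.trans m2.symm))
        have y1 : φ y ≠ inl j := fun e => hy (k1.1 (e.trans m2.symm))
        rw [agree _ x1 (m4 x), agree _ y1 (m4 y)]
        exact edge _ _ (k1.2 _ _ hxy) (k3 x) (k3 y) x1 y1
      · rw [← pu', ← e]; exact (hπ' _).symm
      · obtain ⟨-, -, m5, -⟩ := hG _ hm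
        simp only [comp_apply] at m5
        have : s = b := k1.1 (hπ'.injective (by rw [m5, m2, pj']))
        subst this
        exact hrc' ((m3 r hrs.symm).trans (m3 c hsc).symm)
  · intro φ ψ k1 _ k3 k4 n1 _ n3 n4 e
    have cross : ∀ φ ψ, IsC F (GG d M q) φ → IsC F (GG d M q) ψ → (∀ a, ψ a ≠ inr l) →
        ψ ∉ many (Fin n) L 3 → ¬ IsC F (GG d M q) (π ∘ ψ) → π ∘ φ ≠ π' ∘ ψ := by
      intro φ ψ k1 n1 n3 n4 n5 e
      obtain ⟨a, b, hab, m1, m2, -⟩ := key ψ n1 n3 n4 n5
      have m3 := k1.2 _ _ hab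
      have ea := congrFun e a
      have eb := congrFun e b
      simp only [comp_apply] at ea eb
      rw [← hπ (φ a), ← hπ (φ b), ea, eb, m1, m2, pu', pj', pv, pl] at m3
      exact hnl m3
    by_cases k5 : IsC F (GG d M q) (π ∘ φ) <;> by_cases n5 : IsC F (GG d M q) (π ∘ ψ) <;>
      simp only [k5, n5, if_true, if_false] at e
    · ext a; exact hπ.injective (congrFun e a)
    · exact absurd e (cross φ ψ k1 n1 n3 n4 n5)
    · exact absurd e.symm (cross ψ φ n1 k1 k3 k4 k5)
    · ext a; exact hπ'.injective (congrFun e a)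
  · intro ψ hψ
    obtain ⟨m1, m2, -, m4⟩ := hG ψ hψ
    exact ⟨m1, ⟨r, m2⟩, m4⟩
  · refine (many_card L _).trans_lt ?_
    rw [pool_card _ {s, r} W]
    · rw [card_pair hrs.ne']
      simp only [Fintype.card_fin, Fintype.card_sum]
      refine hbig _ 2 hL ?_
      have : ({r, s, c} : Finset (Fin n)) ⊆ univ := subset_univ _
      have := card_le_card this
      rw [card_insert_of_notMem (by simp [hrs.ne, hrc']), card_pair hsc.ne] at this
      simpa using this
    · intro a ha
      simp only [mem_insert, mem_singleton] at ha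
      rcases hcs a with ⟨a1, a2, a3, a4⟩ | ⟨a1, a2, a3, a4⟩ | ⟨a1, a1', a2, a3, a4⟩
      · rw [PP_card _ (by omega), a4]
      · rw [PP_card _ (by omega), a4]
      · exact absurd ha (by simp [a1, a1'])
    · intro a ha
      have e7 := bl_le W a
      have H2 := hh_ge d M 0
      simp only [mem_insert, mem_singleton, not_or] at ha
      rcases hcs a with ⟨a1, a2, a3, a4⟩ | ⟨a1, a2, a3, a4⟩ | ⟨a1, a1', a2, a3, a4⟩
      · exact absurd a1 ha.1
      · exact absurd a1 ha.2
      · rw [PP_card _ (by omega), a4]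

end steps

lemma mono_of_succ {q : ℕ} (f : Fin q → ℕ) (h : ∀ a b : Fin q, b.val = a.val + 1 → f a < f b) :
    StrictMono f := by
  cases q with
  | zero => intro a; exact a.elim0
  | succ q =>
    rw [Fin.strictMono_iff_lt_succ]
    intro i
    exact h _ _ (by simp)

lemma noncomplete {n : ℕ} (F : SimpleGraph (Fin n)) (hn : 3 ≤ n) (hF : F.Connected)
    (hc : F ≠ ⊤) : ∃ (m : ℕ) (G' : SimpleGraph (Fin m)), 2 ≤ m ∧ Injective (fdeg F G') := by
  obtain ⟨r, -, hr⟩ := exists_min_image (univ : Finset (Fin n)) (fun a => F.degree a)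
    ⟨⟨0, by omega⟩, mem_univ _⟩
  have hmin : ∀ a, F.degree r ≤ F.degree a := fun a => hr a (mem_univ a)
  obtain ⟨c0, hc0⟩ : ∃ c0, ¬ (c0 = r ∨ F.Adj r c0) := by
    by_contra hne
    push Not at hne
    apply hc
    have h1 : F.neighborFinset r = univ.erase r := by
      ext x
      simp only [SimpleGraph.mem_neighborFinset, mem_erase, mem_univ, and_true]
      exact ⟨fun h => h.ne', fun h => (hne x).resolve_left h⟩
    ext a b
    simp only [SimpleGraph.top_adj]
    refine ⟨fun h => h.ne, fun h => ?_⟩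
    have h2 : F.neighborFinset a = univ.erase a := by
      apply eq_of_subset_of_card_le
      · intro x hx
        simp only [SimpleGraph.mem_neighborFinset] at hx
        simp [hx.ne']
      · have := hmin a
        rw [← SimpleGraph.card_neighborFinset_eq_degree,
          ← SimpleGraph.card_neighborFinset_eq_degree, h1] at this
        simpa using this
    rw [← SimpleGraph.mem_neighborFinset, h2]
    simp [h.symm]
  obtain ⟨w⟩ := hF.preconnected r c0
  obtain ⟨dd, -, d1, d2⟩ := w.exists_boundary_dart {x | x = r ∨ F.Adj r x} (Or.inl rfl) hc0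
  simp only [Set.mem_ofPred_eq, not_or] at d1 d2
  have hsc := dd.adj
  have hrs : F.Adj r dd.fst := d1.resolve_left (fun e => d2.2 (e ▸ hsc))
  set s := dd.fst
  set c := dd.snd
  let d := n + 1
  let W := 2 ^ n * ((2 * d + 4) ^ n * (2 * (d + 1) * (n + 2)) ^ n) + 2 * d + 1
  let M := (n + 2) * W
  let q := hh d M 0
  have hW : 2 * d < W := by simp only [W]; omega
  have hM : 2 * d < M := by have := bl_le W r; omega
  have hbig : ∀ k e, k ≤ 2 * d + 4 → e + 1 ≤ n →
      2 ^ n * (k ^ (e + 1) * (q + q) ^ (n - (e + 1))) < W ^ (n - e) := by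
    intro k e h1 h2
    refine num n (2 * d + 4) (2 * (d + 1) * (n + 2)) W e (q + q) k (by omega)
      (Nat.mul_pos (by omega) (by omega)) h2 h1 ?_ (by simp only [W]; omega)
    simp only [q, hh, M, Nat.sub_zero]
    apply le_of_eq; ring
  have hq2 := hh_ge d M 0
  have s1 : StrictMono (fun t : Fin q => N F (GG d M q) (inl t)) := by
    apply mono_of_succ
    intro a b hab
    by_cases h : a.val < d
    · exact step1 rfl hW rfl le_rfl hrs hsc d2.2 (Ne.symm d2.1) hbig hmin a b hab h
    · exact step2 rfl hM le_rfl hrs a b hab (by omega)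
  have s2 : StrictMono (fun t : Fin q => N F (GG d M q) (inr t.rev)) := by
    apply mono_of_succ
    intro a b hab
    have hab' : a.rev.val = b.rev.val + 1 := by
      have := b.2
      simp only [Fin.val_rev]; omega
    by_cases h : ∀ x : Fin q, R d M x a.rev → R d M x b.rev
    · exact step4 rfl hM le_rfl hrs _ _ hab' h
    · push Not at h
      obtain ⟨j, j1, j2⟩ := h
      exact step5 rfl hW rfl le_rfl hrs hsc d2.2 (Ne.symm d2.1) hbig _ _ j hab' j1 j2
  have s3 : ∀ a b : Fin q, N F (GG d M q) (inl a) < N F (GG d M q) (inr b) := by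
    intro a b
    let t : Fin q := ⟨q - 1, by omega⟩
    have e1 := step3 (F := F) (q := q) rfl hM le_rfl hrs t (by simp only [t]; omega)
    have e2 := s1.monotone (show a ≤ t by have := a.2; simp only [t, Fin.le_def]; omega)
    have e3 := s2.monotone (show t.rev ≤ b.rev by
      have := b.2; simp only [t, Fin.le_def, Fin.val_rev]; omega)
    simp only [Fin.rev_rev] at e2 e3
    omega
  apply transfer F (GG d M q)
  · simp only [Fintype.card_sum, Fintype.card_fin]; omega
  · rintro (a | a) (b | b) h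
    · rw [s1.injective h]
    · exact absurd h (s3 a b).ne
    · exact absurd h.symm (s3 b a).ne
    · have : a.rev = b.rev := s2.injective (by simpa only [Fin.rev_rev] using h)
      rw [Fin.rev_injective this]

end Pool.Agent.H.MP_bf8eef_co
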