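import Pool.Agent.H.MP_bf8eef_co.A

set_option autoImplicit false

namespace Pool.Agent.H.MP_bf8eef_co

open Finset Function Sum
open scoped Classical

lemma fdeg_top {V : Type} [Fintype V] (n : ℕ) (G : SimpleGraph V) (v : V)
    (S : Finset (Finset V)) (hS : ∀ s, s ∈ S ↔ G.IsNClique n s ∧ v ∈ s) :
    fdeg (⊤ : SimpleGraph (Fin n)) G v = S.card := by
  unfold fdeg
  rw [← Set.ncard_coe_finset]
  symm
  apply Set.ncard_congr (fun (s : Finset V) _ => (⊤ : G.Subgraph).induce (s : Set V))
  · intro s hs
    rw [mem_coe, hS] at hs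
    refine ⟨⟨⟨(equivFinOfCardEq hs.1.2 : s ≃ Fin n), ?_⟩⟩, by simpa using hs.2⟩
    rintro ⟨a, ha⟩ ⟨b, hb⟩
    simp only [SimpleGraph.top_adj, SimpleGraph.Subgraph.coe_adj, SimpleGraph.Subgraph.induce_adj,
      SimpleGraph.Subgraph.top_adj]
    constructor
    · intro h
      exact ⟨ha, hb, hs.1.1 ha hb (fun e => h (by subst e; rfl))⟩
    · intro h e
      exact h.2.2.ne (congrArg Subtype.val ((equivFinOfCardEq hs.1.2).injective e))
  · intro s t _ _ h
    have := congrArg SimpleGraph.Subgraph.verts h
    simpa using this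
  · rintro H ⟨⟨e⟩, hv⟩
    have hadj : ∀ a ∈ H.verts, ∀ b ∈ H.verts, a ≠ b → H.Adj a b := by
      intro a ha b hb hab
      have := (e.map_rel_iff (a := ⟨a, ha⟩) (b := ⟨b, hb⟩)).1
        (fun h => hab (congrArg Subtype.val (e.injective h)))
      exact this
    refine ⟨H.verts.toFinset, ?_, ?_⟩
    · simp only [mem_coe, hS, Set.mem_toFinset]
      refine ⟨⟨fun a ha b hb hab => H.adj_sub (hadj a (by simpa using ha) b (by simpa using hb) hab),
        ?_⟩, hv⟩
      rw [Set.toFinset_card, Fintype.card_congr e.toEquiv, Fintype.card_fin]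
    · ext a b
      · simp
      · simp only [SimpleGraph.Subgraph.induce_adj, SimpleGraph.Subgraph.top_adj, Set.coe_toFinset]
        exact ⟨fun h => hadj a h.1 b h.2.1 h.2.2.ne,
          fun h => ⟨H.edge_vert h, H.edge_vert h.symm, H.adj_sub h⟩⟩

lemma cl_between {V : Type} [DecidableEq V] (n : ℕ) (G : SimpleGraph V) (D C : Finset V)
    (hd : Disjoint D C) (hc : G.IsClique ((D ∪ C : Finset V) : Set V)) (hn : D.card ≤ n)
    (S : Finset (Finset V)) (hS : ∀ s, s ∈ S ↔ G.IsNClique n s ∧ D ⊆ s ∧ s ⊆ D ∪ C) :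
    S.card = C.card.choose (n - D.card) := by
  rw [← card_powersetCard]
  apply card_nbij' (fun s => s \ D) (fun t => D ∪ t)
  · intro s hs
    obtain ⟨h1, h2, h3⟩ := (hS s).1 hs
    simp only [mem_coe, mem_powersetCard]
    refine ⟨fun x hx => ?_, by rw [card_sdiff_of_subset h2, h1.2]⟩
    rw [mem_sdiff] at hx
    exact (mem_union.1 (h3 hx.1)).resolve_left hx.2
  · intro t ht
    simp only [mem_coe, mem_powersetCard] at ht
    refine (hS _).2 ⟨⟨hc.subset ?_, ?_⟩, subset_union_left, union_subset_union_right ht.1⟩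
    · exact coe_subset.2 (union_subset_union_right ht.1)
    · rw [card_union_of_disjoint (hd.mono_right ht.1), ht.2]; omega
  · intro s hs
    exact union_sdiff_of_subset ((hS s).1 hs).2.1
  · intro t ht
    simp only [mem_coe, mem_powersetCard] at ht
    exact union_sdiff_cancel_left (hd.mono_right ht.1)

section split
variable {I K : Type} [Fintype I] [Fintype K] (A : I → K → Prop)

def sadj : I ⊕ K → I ⊕ K → Prop
  | inl _, inl _ => False
  | inl t, inr p => A t p
  | inr p, inl t => A t p
  | inr p, inr p' => p ≠ p'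

def SG : SimpleGraph (I ⊕ K) where
  Adj := sadj A
  symm := ⟨by rintro (x | x) (y | y) h <;> simp only [sadj] at h ⊢ <;> first | exact h | exact h.symm⟩
  loopless := ⟨by rintro (x | x) h <;> simp [sadj] at h⟩

noncomputable def nbr (j : I) : Finset (I ⊕ K) := (univ.filter (A j)).map Embedding.inr

omit [Fintype I] in
lemma mem_nbr {j : I} {x : I ⊕ K} : x ∈ nbr A j ↔ ∃ k, A j k ∧ inr k = x := by
  simp [nbr]

omit [Fintype I] in
lemma clq (j : I) : (SG A).IsClique ((insert (inl j) (nbr A j) : Finset (I ⊕ K)) : Set (I ⊕ K)) := by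
  intro x hx y hy hxy
  simp only [coe_insert, Set.mem_insert_iff, mem_coe, mem_nbr] at hx hy
  rcases hx with rfl | ⟨a, ha, rfl⟩ <;> rcases hy with rfl | ⟨b, hb, rfl⟩
  · exact absurd rfl hxy
  · exact hb
  · exact ha
  · exact fun e => hxy (by rw [e])

omit [Fintype I] in
lemma sub_nbr {n : ℕ} {s : Finset (I ⊕ K)} (h : (SG A).IsNClique n s) {j : I} (hj : inl j ∈ s) :
    s ⊆ insert (inl j) (nbr A j) := by
  intro x hx
  by_cases e : x = inl j
  · simp [e]
  · have := h.1 hj hx (Ne.symm e)
    rcases x with x | x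
    · exact this.elim
    · exact mem_insert_of_mem ((mem_nbr A).2 ⟨x, this, rfl⟩)

lemma cl_I (n : ℕ) (hn : 1 ≤ n) (j : I) :
    fdeg (⊤ : SimpleGraph (Fin n)) (SG A) (inl j) = (univ.filter (A j)).card.choose (n - 1) := by
  rw [fdeg_top n (SG A) (inl j)
      (univ.filter (fun s : Finset (I ⊕ K) => (SG A).IsNClique n s ∧ inl j ∈ s)) (by simp),
    cl_between n (SG A) {inl j} (nbr A j) (by simp [mem_nbr]) (clq A j) (by simpa)]
  · simp [nbr]
  · intro s
    simp only [mem_filter, mem_univ, true_and, singleton_subset_iff]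
    exact ⟨fun h => ⟨h.1, h.2, sub_nbr A h.1 h.2⟩, fun h => ⟨h.1, h.2.1⟩⟩

lemma cl_K (n : ℕ) (hn : 2 ≤ n) (k : K) :
    fdeg (⊤ : SimpleGraph (Fin n)) (SG A) (inr k) = (Fintype.card K - 1).choose (n - 1) +
      ∑ j ∈ univ.filter (fun j => A j k), ((univ.filter (A j)).card - 1).choose (n - 2) := by
  let S0 := univ.filter (fun s : Finset (I ⊕ K) => (SG A).IsNClique n s ∧ inr k ∈ s ∧
    ∀ j, inl j ∉ s)
  let S := fun j : I => univ.filter (fun s : Finset (I ⊕ K) => (SG A).IsNClique n s ∧ inr k ∈ s ∧
    inl j ∈ s)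
  have e : ∀ s, s ∈ S0 ∪ (univ.filter (fun j => A j k)).biUnion S ↔
      (SG A).IsNClique n s ∧ inr k ∈ s := by
    intro s
    simp only [S0, S, mem_filter, mem_univ, true_and, mem_union, mem_biUnion]
    symm
    constructor
    · rintro ⟨h1, h2⟩
      by_cases h : ∀ j, inl j ∉ s
      · exact Or.inl ⟨h1, h2, h⟩
      · push Not at h
        obtain ⟨j, hj⟩ := h
        exact Or.inr ⟨j, h1.1 hj h2 (by simp), h1, h2, hj⟩
    · rintro (h | ⟨j, -, h⟩) <;> exact ⟨h.1, h.2.1⟩
  rw [fdeg_top n (SG A) (inr k) _ e, card_union_of_disjoint, card_biUnion]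
  · congr 1
    · rw [cl_between n (SG A) {inr k} ((univ.erase k).map Embedding.inr) (by simp) ?_
        (by simp; omega)]
      · simp
      · intro s
        simp only [S0, mem_filter, mem_univ, true_and, singleton_subset_iff]
        refine ⟨fun h => ⟨h.1, h.2.1, ?_⟩, fun h => ⟨h.1, h.2.1, fun j hj => ?_⟩⟩
        · rintro (x | x) hx
          · exact absurd hx (h.2.2 x)
          · by_cases e : x = k <;> simp [e]
        · simpa using h.2.2 hj
      · rintro (x | x) hx (y | y) hy hxy
        · simp at hx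
        · simp at hx
        · simp at hy
        · exact fun e => hxy (by rw [e])
    · apply sum_congr rfl
      intro j hj
      have hj' : A j k := by simpa using hj
      have hk : inr k ∈ nbr A j := (mem_nbr A).2 ⟨k, hj', rfl⟩
      have hu : ({inl j, inr k} : Finset (I ⊕ K)) ∪ (nbr A j).erase (inr k) =
          insert (inl j) (nbr A j) := by
        rw [insert_union, ← insert_eq, insert_erase hk]
      rw [cl_between n (SG A) {inl j, inr k} ((nbr A j).erase (inr k)) (by simp [mem_nbr])
        (by rw [hu]; exact clq A j) (by rw [card_pair (by simp)]; exact hn)]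
      · rw [card_pair (by simp), card_erase_of_mem hk]; simp [nbr]
      · intro s
        rw [hu]
        simp only [S, mem_filter, mem_univ, true_and, insert_subset_iff, singleton_subset_iff]
        exact ⟨fun h => ⟨h.1, ⟨h.2.2, h.2.1⟩, sub_nbr A h.1 h.2.2⟩,
          fun h => ⟨h.1, h.2.1.2, h.2.1.1⟩⟩
  · intro a _ b _ hab
    rw [Function.onFun, disjoint_left]
    intro s h1 h2
    simp only [S, mem_filter, mem_univ, true_and] at h1 h2
    exact (h1.1.1 h1.2.2 h2.2.2 (by simpa using hab)).elim
  · rw [disjoint_left]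
    intro s h1 h2
    simp only [S0, S, mem_filter, mem_univ, true_and, mem_biUnion] at h1 h2
    obtain ⟨j, -, h2⟩ := h2
    exact h1.2.2 j h2.2.2

end split

def miss (n i j : ℕ) : Prop :=
  (i % 2 = 1 ∧ 2 * j + 1 ≤ i) ∨ (i = 2 * j ∧ j ≠ 0) ∨ (i = 2 * n + 4 ∧ j = 0)

def hit (n i j : ℕ) : Prop := ¬ miss n i j

lemma fin_card (b : ℕ) (p : ℕ → Prop) :
    (univ.filter (fun i : Fin b => p i)).card = ((range b).filter p).card := by
  rw [← card_map Fin.valEmbedding]
  congr 1
  ext z
  simp only [mem_map, mem_filter, mem_univ, true_and, Fin.valEmbedding_apply, mem_range]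
  constructor
  · rintro ⟨p, h1, rfl⟩; exact ⟨p.2, h1⟩
  · intro h1; exact ⟨⟨z, h1.1⟩, h1.2, rfl⟩

lemma deg_eq (n j : ℕ) (hj : j < n + 3) :
    (univ.filter (fun i : Fin (2 * n + 5) => hit n i j)).card = n + 2 + j := by
  rw [fin_card _ (fun i => hit n i j)]
  have h0 : (range (2 * n + 5)).filter (fun i => hit n i j) =
      (range (2 * n + 5)).filter (fun i => ¬ miss n i j) := by
    ext; simp [hit]
  rw [h0]
  have h1 := card_filter_add_card_filter_not (s := range (2 * n + 5)) (fun i => miss n i j)
  have h2 : (range (2 * n + 5)).filter (fun i => miss n i j) =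
      insert (if j = 0 then 2 * n + 4 else 2 * j) ((Ico j (n + 2)).image (fun x => 2 * x + 1)) := by
    ext i
    simp only [mem_filter, mem_range, mem_insert, mem_image, mem_Ico, miss]
    constructor
    · rintro ⟨h, h' | h' | h'⟩
      · exact Or.inr ⟨i / 2, by omega, by omega⟩
      · left; split_ifs <;> omega
      · left; split_ifs <;> omega
    · rintro (h | ⟨x, h, rfl⟩)
      · split_ifs at h <;> omega
      · omega
  rw [h2, card_insert_of_notMem, card_image_of_injective _ (fun x y h => by simpa using h)] at h1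
  · simp only [Nat.card_Ico, card_range] at h1; omega
  · simp only [mem_image, mem_Ico, not_exists]
    intro x hx
    split_ifs at hx <;> omega

noncomputable def ms (n i : ℕ) : ℕ :=
  ∑ j ∈ (range (n + 3)).filter (fun j => miss n i j), (n + 1 + j).choose (n + 1)

lemma hock (n j : ℕ) : ∑ x ∈ range (j + 1), (n + 1 + x).choose (n + 1) =
    (n + 2 + j).choose (n + 2) := by
  induction j with
  | zero => simp
  | succ j ih =>
    rw [sum_range_succ, ih, show n + 2 + (j + 1) = (n + 2 + j) + 1 by ring, Nat.choose_succ_succ',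
      show n + 1 + (j + 1) = n + 2 + j by ring, add_comm]

lemma ms_odd (n j : ℕ) (hj : j ≤ n + 1) : ms n (2 * j + 1) = (n + 2 + j).choose (n + 2) := by
  rw [← hock, ms]
  congr 1
  ext x
  simp only [mem_filter, mem_range, miss]; omega

lemma ms_even (n j : ℕ) (hj : j ≤ n) : ms n (2 * j + 2) = (n + 2 + j).choose (n + 1) := by
  have : (range (n + 3)).filter (fun x => miss n (2 * j + 2) x) = {j + 1} := by
    ext x
    simp only [mem_filter, mem_range, miss, mem_singleton]; omega
  rw [ms, this, sum_singleton, show n + 1 + (j + 1) = n + 2 + j by ring]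

lemma ms_last (n : ℕ) : ms n (2 * n + 4) = 1 + (n + 2 + (n + 1)).choose (n + 1) := by
  have : (range (n + 3)).filter (fun x => miss n (2 * n + 4) x) = {0, n + 2} := by
    ext x
    simp only [mem_filter, mem_range, miss, mem_singleton, mem_insert]
    constructor
    · intro h; omega
    · rintro (rfl | rfl)
      · exact ⟨by omega, Or.inr (Or.inr ⟨trivial, rfl⟩)⟩
      · exact ⟨by omega, Or.inr (Or.inl ⟨by omega, by omega⟩)⟩
  rw [ms, this, sum_pair (by omega), show n + 1 + (n + 2) = n + 2 + (n + 1) by ring]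
  simp

lemma ms_zero (n : ℕ) : ms n 0 = 0 := by
  have : (range (n + 3)).filter (fun x => miss n 0 x) = ∅ := by
    ext x
    simp only [mem_filter, mem_range, miss, notMem_empty, iff_false]; omega
  rw [ms, this, sum_empty]

lemma ms_lt (n i : ℕ) (hi : i < 2 * n + 4) : ms n i < ms n (i + 1) := by
  have key : ∀ j, (n + 2 + j).choose (n + 2) * (n + 2) = (n + 2 + j).choose (n + 1) * (j + 1) := by
    intro j
    rw [Nat.choose_succ_right_eq]
    congr 1; omega
  rcases Nat.eq_zero_or_pos i with rfl | h0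
  · rw [ms_zero, show 0 + 1 = 2 * 0 + 1 by ring, ms_odd n 0 (by omega)]; simp
  rcases Nat.even_or_odd' (i - 1) with ⟨j, h | h⟩
  · obtain rfl : i = 2 * j + 1 := by omega
    rw [ms_odd n j (by omega)]
    have k1 := key j
    have k2 : 0 < (n + 2 + j).choose (n + 1) := Nat.choose_pos (by omega)
    by_cases hj : j ≤ n
    · rw [show 2 * j + 1 + 1 = 2 * j + 2 by ring, ms_even n j hj]
      by_contra hc
      push Not at hc
      nlinarith
    · obtain rfl : j = n + 1 := by omega
      rw [show 2 * (n + 1) + 1 + 1 = 2 * n + 4 by ring, ms_last]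
      have := Nat.eq_of_mul_eq_mul_right (by omega : 0 < n + 2) k1
      omega
  · obtain rfl : i = 2 * j + 2 := by omega
    rw [ms_even n j (by omega), show 2 * j + 2 + 1 = 2 * (j + 1) + 1 by ring,
      ms_odd n (j + 1) (by omega), show n + 2 + (j + 1) = (n + 2 + j) + 1 by ring,
      Nat.choose_succ_succ']
    have k2 : 0 < (n + 2 + j).choose (n + 1 + 1) := Nat.choose_pos (by omega)
    omega

lemma ms_mono (n : ℕ) {a b : ℕ} (h : a < b) (hb : b ≤ 2 * n + 4) : ms n a < ms n b := by
  induction b, h using Nat.le_induction with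
  | base => exact ms_lt n a (by omega)
  | succ b hab ih => exact (ih (by omega)).trans (ms_lt n b (by omega))

lemma complete (n : ℕ) : ∃ (m : ℕ) (G' : SimpleGraph (Fin m)), 2 ≤ m ∧
    Injective (fdeg (⊤ : SimpleGraph (Fin (n + 3))) G') := by
  let A : Fin (n + 3) → Fin (2 * n + 5) → Prop := fun j i => hit n i j
  have hI : ∀ j : Fin (n + 3), fdeg (⊤ : SimpleGraph (Fin (n + 3))) (SG A) (inl j) =
      (n + 2 + j).choose (n + 2) := by
    intro j
    rw [cl_I A _ (by omega)]
    congr 1
    exact deg_eq n j j.2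
  have hK : ∀ i : Fin (2 * n + 5), fdeg (⊤ : SimpleGraph (Fin (n + 3))) (SG A) (inr i) =
      (2 * n + 4).choose (n + 2) +
      ∑ j ∈ (range (n + 3)).filter (fun j => ¬ miss n i j), (n + 1 + j).choose (n + 1) := by
    intro i
    rw [cl_K A _ (by omega), Fintype.card_fin]
    congr 1
    rw [sum_filter, sum_filter, ← Fin.sum_univ_eq_sum_range
      (fun j => if ¬ miss n i j then (n + 1 + j).choose (n + 1) else 0)]
    apply sum_congr rfl
    intro j _
    have := deg_eq n j j.2
    have e : (univ.filter (A j)).card - 1 = n + 1 + j := by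
      have e' : (univ.filter (A j)).card = n + 2 + j := this
      omega
    rw [e]
    by_cases hm : miss n i j <;> simp [A, hit, hm]
  have hK2 : ∀ i : Fin (2 * n + 5), fdeg (⊤ : SimpleGraph (Fin (n + 3))) (SG A) (inr i) + ms n i =
      (2 * n + 4).choose (n + 2) + ∑ j ∈ range (n + 3), (n + 1 + j).choose (n + 1) := by
    intro i
    rw [hK, ms, add_assoc, add_comm (∑ j ∈ (range (n + 3)).filter (fun j => ¬ miss n i j), _),
      sum_filter_add_sum_filter_not]
  have hIK : ∀ j i, fdeg (⊤ : SimpleGraph (Fin (n + 3))) (SG A) (inl j) <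
      fdeg (⊤ : SimpleGraph (Fin (n + 3))) (SG A) (inr i) := by
    intro j i
    rw [hI, hK]
    have h1 : (n + 2 + j).choose (n + 2) ≤ (2 * n + 4).choose (n + 2) :=
      Nat.choose_le_choose _ (by have := j.2; omega)
    have h2 : 0 < ∑ j ∈ (range (n + 3)).filter (fun j => ¬ miss n i j),
        (n + 1 + j).choose (n + 1) := by
      apply sum_pos (fun j _ => Nat.choose_pos (by omega))
      have := i.2
      by_cases h : i.val = 2 * n + 4
      · exact ⟨1, by simp only [mem_filter, mem_range, miss]; omega⟩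
      · exact ⟨n + 2, by simp only [mem_filter, mem_range, miss]; omega⟩
    omega
  have hmono : StrictMono (fun j : ℕ => (n + 2 + j).choose (n + 2)) := by
    apply strictMono_nat_of_lt_succ
    intro j
    rw [show n + 2 + (j + 1) = (n + 2 + j) + 1 by ring, Nat.choose_succ_succ']
    have k2 : 0 < (n + 2 + j).choose (n + 1) := Nat.choose_pos (by omega)
    show (n + 2 + j).choose (n + 1 + 1) < _
    omega
  apply transfer _ (SG A)
  · simp only [Fintype.card_sum, Fintype.card_fin]; omega
  · intro x y h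
    rw [N_eq, N_eq] at h
    have h' := Nat.eq_of_mul_eq_mul_left (aut_pos _) h
    rcases x with a | a <;> rcases y with b | b
    · rw [hI, hI] at h'
      rw [Fin.ext (hmono.injective h')]
    · exact absurd h' (hIK a b).ne
    · exact absurd h'.symm (hIK b a).ne
    · have e1 := hK2 a
      have e2 := hK2 b
      have e3 : ms n a = ms n b := by omega
      have := a.2
      have := b.2
      rcases lt_trichotomy a.val b.val with k | k | k
      · exact absurd e3 (ms_mono n k (by omega)).ne
      · rw [Fin.ext k]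
      · exact absurd e3.symm (ms_mono n k (by omega)).ne

end Pool.Agent.H.MP_bf8eef_co
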