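import Pool.Agent.H.MP_bf8eef_co.C
import Pool.Agent.H.MP_bf8eef_co.D

set_option autoImplicit false

namespace Pool.Agent.H.MP_bf8eef_co

open Finset Function Sum
open scoped Classical

lemma transfer' {α V : Type} [Fintype α] [Fintype V] (F : SimpleGraph α) (G : SimpleGraph V)
    (z : ℕ) (h2 : z ≤ Fintype.card V) (h : Injective (N F G)) :
    ∃ (m : ℕ) (G' : SimpleGraph (Fin m)), z ≤ m ∧ Injective (fdeg F G') := by
  refine ⟨Fintype.card V, G.comap (Fintype.equivFin V).symm, h2, fun x y hxy => ?_⟩
  apply (Fintype.equivFin V).symm.injective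
  apply h
  rw [← N_comap, ← N_comap, N_eq, N_eq, hxy]

lemma noncomplete' {n : ℕ} (F : SimpleGraph (Fin n)) (hn : 3 ≤ n) (hF : F.Connected)
    (hc : F ≠ ⊤) (z : ℕ) :
    ∃ (m : ℕ) (G' : SimpleGraph (Fin m)), z ≤ m ∧ Injective (fdeg F G') := by
  obtain ⟨r, -, hr⟩ := exists_min_image (univ : Finset (Fin n)) (fun a => F.degree a)
    ⟨⟨0, by omega⟩, mem_univ _⟩
  have hmin : ∀ a, F.degree r ≤ F.degree a := fun a => hr a (mem_univ a)
  obtain ⟨c0, hc0⟩ : ∃ c0, ¬ (c0 = r ∨ F.Adj r c0) := by
    by_contra hne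
    push Not at hne
    apply hc
    have h1 : F.neighborFinset r = univ.erase r := by
      ext x
      simp only [SimpleGraph.mem_neighborFinset, mem_erase, mem_univ, and_true]
      exact ⟨fun h => h.ne', fun h => (hne x).resolve_left h⟩
    ext a b
    simp only [SimpleGraph.top_adj]
    refine ⟨fun h => h.ne, fun h => ?_⟩
    have h2 : F.neighborFinset a = univ.erase a := by
      apply eq_of_subset_of_card_le
      · intro x hx
        simp only [SimpleGraph.mem_neighborFinset] at hx
        simp [hx.ne']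
      · have := hmin a
        rw [← SimpleGraph.card_neighborFinset_eq_degree,
          ← SimpleGraph.card_neighborFinset_eq_degree, h1] at this
        simpa using this
    rw [← SimpleGraph.mem_neighborFinset, h2]
    simp [h.symm]
  obtain ⟨w⟩ := hF.preconnected r c0
  obtain ⟨dd, -, d1, d2⟩ := w.exists_boundary_dart {x | x = r ∨ F.Adj r x} (Or.inl rfl) hc0
  simp only [Set.mem_ofPred_eq, not_or] at d1 d2
  have hsc := dd.adj
  have hrs : F.Adj r dd.fst := d1.resolve_left (fun e => d2.2 (e ▸ hsc))
  set s := dd.fst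
  set c := dd.snd
  let d := n + 1
  let W := 2 ^ n * ((2 * d + 4) ^ n * (2 * (d + 1) * (n + 2)) ^ n) + 2 * d + 1 + z
  let M := (n + 2) * W
  let q := hh d M 0
  have hW : 2 * d < W := by simp only [W]; omega
  have hWz : z < W := by simp only [W]; omega
  have hM : 2 * d < M := by have := bl_le W r; omega
  have hMz : z < M := by have := bl_le W r; omega
  have hbig : ∀ k e, k ≤ 2 * d + 4 → e + 1 ≤ n →
      2 ^ n * (k ^ (e + 1) * (q + q) ^ (n - (e + 1))) < W ^ (n - e) := by
    intro k e h1 h2
    refine num n (2 * d + 4) (2 * (d + 1) * (n + 2)) W e (q + q) k (by omega)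
      (Nat.mul_pos (by omega) (by omega)) h2 h1 ?_ (by simp only [W]; omega)
    simp only [q, hh, M, Nat.sub_zero]
    apply le_of_eq; ring
  have hq2 := hh_ge d M 0
  have s1 : StrictMono (fun t : Fin q => N F (GG d M q) (inl t)) := by
    apply mono_of_succ
    intro a b hab
    by_cases h : a.val < d
    · exact step1 rfl hW rfl le_rfl hrs hsc d2.2 (Ne.symm d2.1) hbig hmin a b hab h
    · exact step2 rfl hM le_rfl hrs a b hab (by omega)
  have s2 : StrictMono (fun t : Fin q => N F (GG d M q) (inr t.rev)) := by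
    apply mono_of_succ
    intro a b hab
    have hab' : a.rev.val = b.rev.val + 1 := by
      have := b.2
      simp only [Fin.val_rev]; omega
    by_cases h : ∀ x : Fin q, R d M x a.rev → R d M x b.rev
    · exact step4 rfl hM le_rfl hrs _ _ hab' h
    · push Not at h
      obtain ⟨j, j1, j2⟩ := h
      exact step5 rfl hW rfl le_rfl hrs hsc d2.2 (Ne.symm d2.1) hbig _ _ j hab' j1 j2
  have s3 : ∀ a b : Fin q, N F (GG d M q) (inl a) < N F (GG d M q) (inr b) := by
    intro a b
    let t : Fin q := ⟨q - 1, by omega⟩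
    have e1 := step3 (F := F) (q := q) rfl hM le_rfl hrs t (by simp only [t]; omega)
    have e2 := s1.monotone (show a ≤ t by have := a.2; simp only [t, Fin.le_def]; omega)
    have e3 := s2.monotone (show t.rev ≤ b.rev by
      have := b.2; simp only [t, Fin.le_def, Fin.val_rev]; omega)
    simp only [Fin.rev_rev] at e2 e3
    omega
  apply transfer' F (GG d M q)
  · simp only [Fintype.card_sum, Fintype.card_fin]; omega
  · rintro (a | a) (b | b) h
    · rw [s1.injective h]
    · exact absurd h (s3 a b).ne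
    · exact absurd h.symm (s3 b a).ne
    · have : a.rev = b.rev := s2.injective (by simpa only [Fin.rev_rev] using h)
      rw [Fin.rev_injective this]

def miss' (n e i j : ℕ) : Prop :=
  (i % 2 = 1 ∧ 2 * j + 1 ≤ i ∧ i ≤ 2 * n + 3) ∨ (i = 2 * j ∧ j ≠ 0 ∧ j ≤ n + 1) ∨
    (2 * n + 3 < i ∧ i < 2 * n + 4 + e ∧ j + n + 2 ≤ i) ∨
    (i = 2 * n + 4 + e ∧ (j = 0 ∨ n + 2 ≤ j))

def hit' (n e i j : ℕ) : Prop := ¬ miss' n e i j

lemma deg_eq' (n e j : ℕ) (hj : j < n + 3 + e) :
    (univ.filter (fun i : Fin (2 * n + 5 + e) => hit' n e i j)).card = n + 2 + j := by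
  rw [fin_card _ (fun i => hit' n e i j)]
  have h0 : (range (2 * n + 5 + e)).filter (fun i => hit' n e i j) =
      (range (2 * n + 5 + e)).filter (fun i => ¬ miss' n e i j) := by
    ext; simp [hit']
  rw [h0]
  have h1 := card_filter_add_card_filter_not (s := range (2 * n + 5 + e)) (fun i => miss' n e i j)
  have h2 : (range (2 * n + 5 + e)).filter (fun i => miss' n e i j) =
      insert (if j = 0 ∨ n + 2 ≤ j then 2 * n + 4 + e else 2 * j)
        ((Ico j (n + 2)).image (fun x => 2 * x + 1) ∪
          Ico (max (2 * n + 4) (j + n + 2)) (2 * n + 4 + e)) := by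
    ext i
    simp only [mem_filter, mem_range, mem_insert, mem_image, mem_Ico, miss', mem_union]
    constructor
    · rintro ⟨h, h' | h' | h' | h'⟩
      · exact Or.inr (Or.inl ⟨i / 2, by omega, by omega⟩)
      · left; split_ifs <;> omega
      · right; right; omega
      · left; split_ifs <;> omega
    · rintro (h | ⟨x, h, rfl⟩ | h)
      · split_ifs at h <;> omega
      · omega
      · omega
  rw [h2, card_insert_of_notMem, card_union_of_disjoint,
    card_image_of_injective _ (fun x y h => by simpa using h)] at h1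
  · simp only [Nat.card_Ico, card_range] at h1; omega
  · rw [disjoint_left]
    intro x hx hy
    simp only [mem_image, mem_Ico] at hx hy
    obtain ⟨y, h3, rfl⟩ := hx
    omega
  · simp only [mem_image, mem_Ico, mem_union, not_or, not_exists]
    constructor
    · intro x hx
      split_ifs at hx <;> omega
    · split_ifs <;> omega

noncomputable def ms' (n e i : ℕ) : ℕ :=
  ∑ j ∈ (range (n + 3 + e)).filter (fun j => miss' n e i j), (n + 1 + j).choose (n + 1)

lemma ms_low (n e i : ℕ) (hi : i ≤ 2 * n + 3) : ms' n e i = ms n i := by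
  unfold ms' ms
  congr 1
  ext x
  simp only [mem_filter, mem_range, miss, miss']; omega

lemma ms_mid (n e j : ℕ) (hj : j ≤ e) :
    ms' n e (2 * n + 3 + j) = (n + 2 + (n + 1 + j)).choose (n + 2) := by
  rw [← hock, ms']
  congr 1
  ext x
  simp only [mem_filter, mem_range, miss']; omega

lemma ms_last' (n e : ℕ) : ms' n e (2 * n + 4 + e) + (n + 2 + (n + 1)).choose (n + 2) =
    1 + (n + 2 + (n + 2 + e)).choose (n + 2) := by
  have : (range (n + 3 + e)).filter (fun x => miss' n e (2 * n + 4 + e) x) =
      insert 0 (Ico (n + 2) (n + 2 + e + 1)) := by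
    ext x
    simp only [mem_filter, mem_range, miss', mem_Ico, mem_insert, true_and]
    omega
  rw [ms', this, sum_insert (by simp), ← hock, ← hock, add_assoc, add_comm (∑ _ ∈ Ico _ _, _),
    sum_range_add_sum_Ico _ (by omega)]
  simp

lemma ms_lt' (n e i : ℕ) (hi : i < 2 * n + 4 + e) : ms' n e i < ms' n e (i + 1) := by
  by_cases h : i < 2 * n + 3
  · rw [ms_low n e i (by omega), ms_low n e (i + 1) (by omega)]
    exact ms_lt n i (by omega)
  obtain ⟨j, rfl⟩ : ∃ j, i = 2 * n + 3 + j := ⟨i - (2 * n + 3), by omega⟩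
  rw [ms_mid n e j (by omega)]
  have k0 : (n + 2 + (n + 1 + (j + 1))).choose (n + 2) =
      (n + 2 + (n + 1 + j)).choose (n + 1) + (n + 2 + (n + 1 + j)).choose (n + 2) := by
    rw [show n + 2 + (n + 1 + (j + 1)) = (n + 2 + (n + 1 + j)) + 1 by ring, Nat.choose_succ_succ']
  by_cases h2 : j < e
  · rw [add_assoc (2 * n + 3), ms_mid n e (j + 1) h2, k0]
    have k2 : 0 < (n + 2 + (n + 1 + j)).choose (n + 1) := Nat.choose_pos (by omega)
    omega
  · obtain rfl : j = e := by omega
    have k1 := ms_last' n j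
    rw [show 2 * n + 3 + j + 1 = 2 * n + 4 + j by ring]
    rw [show n + 2 + (n + 2 + j) = n + 2 + (n + 1 + (j + 1)) by ring, k0] at k1
    have k3 : (n + 2 + (n + 1)).choose (n + 2) = (n + 2 + (n + 1)).choose (n + 1) :=
      Nat.choose_symm_add
    have k4 : (n + 2 + (n + 1)).choose (n + 1) ≤ (n + 2 + (n + 1 + j)).choose (n + 1) :=
      Nat.choose_le_choose _ (by omega)
    omega

lemma ms_mono' (n e : ℕ) {a b : ℕ} (h : a < b) (hb : b ≤ 2 * n + 4 + e) :
    ms' n e a < ms' n e b := by
  induction b, h using Nat.le_induction with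
  | base => exact ms_lt' n e a (by omega)
  | succ b hab ih => exact (ih (by omega)).trans (ms_lt' n e b (by omega))

lemma complete' (n e : ℕ) : ∃ (m : ℕ) (G' : SimpleGraph (Fin m)), e ≤ m ∧
    Injective (fdeg (⊤ : SimpleGraph (Fin (n + 3))) G') := by
  let A : Fin (n + 3 + e) → Fin (2 * n + 5 + e) → Prop := fun j i => hit' n e i j
  have hI : ∀ j : Fin (n + 3 + e), fdeg (⊤ : SimpleGraph (Fin (n + 3))) (SG A) (inl j) =
      (n + 2 + j).choose (n + 2) := by
    intro j
    rw [cl_I A _ (by omega)]
    congr 1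
    exact deg_eq' n e j j.2
  have hK : ∀ i : Fin (2 * n + 5 + e), fdeg (⊤ : SimpleGraph (Fin (n + 3))) (SG A) (inr i) =
      (2 * n + 4 + e).choose (n + 2) +
      ∑ j ∈ (range (n + 3 + e)).filter (fun j => ¬ miss' n e i j), (n + 1 + j).choose (n + 1) := by
    intro i
    rw [cl_K A _ (by omega), Fintype.card_fin]
    congr 1
    · rw [show 2 * n + 5 + e - 1 = 2 * n + 4 + e by omega]; rfl
    rw [sum_filter, sum_filter, ← Fin.sum_univ_eq_sum_range
      (fun j => if ¬ miss' n e i j then (n + 1 + j).choose (n + 1) else 0)]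
    apply sum_congr rfl
    intro j _
    have := deg_eq' n e j j.2
    have e0 : (univ.filter (A j)).card - 1 = n + 1 + j := by
      have e' : (univ.filter (A j)).card = n + 2 + j := this
      omega
    rw [e0]
    by_cases hm : miss' n e i j <;> simp [A, hit', hm]
  have hK2 : ∀ i : Fin (2 * n + 5 + e),
      fdeg (⊤ : SimpleGraph (Fin (n + 3))) (SG A) (inr i) + ms' n e i =
      (2 * n + 4 + e).choose (n + 2) + ∑ j ∈ range (n + 3 + e), (n + 1 + j).choose (n + 1) := by
    intro i
    rw [hK, ms', add_assoc,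
      add_comm (∑ j ∈ (range (n + 3 + e)).filter (fun j => ¬ miss' n e i j), _),
      sum_filter_add_sum_filter_not]
  have hIK : ∀ j i, fdeg (⊤ : SimpleGraph (Fin (n + 3))) (SG A) (inl j) <
      fdeg (⊤ : SimpleGraph (Fin (n + 3))) (SG A) (inr i) := by
    intro j i
    rw [hI, hK]
    have h1 : (n + 2 + j).choose (n + 2) ≤ (2 * n + 4 + e).choose (n + 2) :=
      Nat.choose_le_choose _ (by have := j.2; omega)
    have h2 : 0 < ∑ j ∈ (range (n + 3 + e)).filter (fun j => ¬ miss' n e i j),
        (n + 1 + j).choose (n + 1) := by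
      apply sum_pos (fun j _ => Nat.choose_pos (by omega))
      have := i.2
      by_cases h : i.val = 2 * n + 4 + e
      · exact ⟨1, by simp only [mem_filter, mem_range, miss']; omega⟩
      · exact ⟨n + 2 + e, by simp only [mem_filter, mem_range, miss']; omega⟩
    omega
  have hmono : StrictMono (fun j : ℕ => (n + 2 + j).choose (n + 2)) := by
    apply strictMono_nat_of_lt_succ
    intro j
    rw [show n + 2 + (j + 1) = (n + 2 + j) + 1 by ring, Nat.choose_succ_succ']
    have k2 : 0 < (n + 2 + j).choose (n + 1) := Nat.choose_pos (by omega)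
    show (n + 2 + j).choose (n + 1 + 1) < _
    omega
  apply transfer' _ (SG A)
  · simp only [Fintype.card_sum, Fintype.card_fin]; omega
  · intro x y h
    rw [N_eq, N_eq] at h
    have h' := Nat.eq_of_mul_eq_mul_left (aut_pos _) h
    rcases x with a | a <;> rcases y with b | b
    · rw [hI, hI] at h'
      rw [Fin.ext (hmono.injective h')]
    · exact absurd h' (hIK a b).ne
    · exact absurd h'.symm (hIK b a).ne
    · have e1 := hK2 a
      have e2 := hK2 b
      have e3 : ms' n e a = ms' n e b := by omega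
      have := a.2
      have := b.2
      rcases lt_trichotomy a.val b.val with k | k | k
      · exact absurd e3 (ms_mono' n e k (by omega)).ne
      · rw [Fin.ext k]
      · exact absurd e3.symm (ms_mono' n e k (by omega)).ne

theorem strong {n : ℕ} (F : SimpleGraph (Fin n)) (hn : 3 ≤ n) (hF : F.Connected) (z : ℕ) :
    ∃ (m : ℕ) (G' : SimpleGraph (Fin m)), z ≤ m ∧ Injective (fdeg F G') := by
  by_cases hc : F = ⊤
  · subst hc
    obtain ⟨k, rfl⟩ : ∃ k, n = k + 3 := ⟨n - 3, by omega⟩
    exact complete' k z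
  · exact noncomplete' F hn hF hc z

end Pool.Agent.H.MP_bf8eef_co
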